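import Pool.Agent.E8helper34.OH.Small

/-!
# Algebras of correspondences acting on the cohomology of sections
-/

set_option autoImplicit false

open scoped ComplexConjugate
open Module Pool.Agent.W539.DI Pool.Agent.R929.DH Pool.Agent.R941.OH

namespace Pool.Agent.E8helper34.OH

section actZ

variable {E : Type} [Ring E] [Algebra ℚ E] {n m k : ℕ} {X : KRing n} {L : X.R} {Z : KRing m}
  {a : ℂ}

/-- the operator of the section induced by an element of the algebra -/
def Ind (A : Act E X) (s : Sect X L Z k a) (f : Module.End ℂ Z.R) : Prop :=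
  ∃ e : E, ∀ x, f (s.ρ x) = s.ρ (A.ρ e x)

variable (A : Act E X) (s : Sect X L Z k a)

theorem rho_pow {ℓ : E} (hℓ : A.ρ ℓ = mu X L) (j : ℕ) (x : X.R) : A.ρ (ℓ ^ j) x = L ^ j * x := by
  rw [map_pow, hℓ, mu_pow]

/-- an element of the algebra which kills the kernel of the restriction induces an operator -/
theorem exists_ind {e : E} (he : ∀ x, s.ρ x = 0 → s.ρ (A.ρ e x) = 0) :
    ∃ f : Module.End ℂ Z.R, ∀ x, f (s.ρ x) = s.ρ (A.ρ e x) := by
  obtain ⟨σ, hσ⟩ := LinearMap.exists_rightInverse_of_surjective s.ρ.toLinearMap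
    (LinearMap.range_eq_top.2 s.surj)
  refine ⟨s.ρ.toLinearMap ∘ₗ A.ρ e ∘ₗ σ, fun x => ?_⟩
  have h1 : s.ρ (σ (s.ρ x)) = s.ρ x := congrArg (fun g : Z.R →ₗ[ℂ] Z.R => g (s.ρ x)) hσ
  show s.ρ (A.ρ e (σ (s.ρ x))) = s.ρ (A.ρ e x)
  rw [← sub_eq_zero, ← map_sub, ← map_sub]
  apply he
  rw [map_sub, h1, sub_self]

/-- the elements of the algebra which preserve the kernel of the restriction -/
noncomputable def nrm : Subalgebra ℚ E where
  carrier := {e | ∀ x, s.ρ x = 0 → s.ρ (A.ρ e x) = 0}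
  mul_mem' := fun {e f} he hf => by
    intro x hx
    rw [map_mul, Module.End.mul_apply]
    exact he _ (hf x hx)
  add_mem' := fun {e f} he hf => by
    intro x hx
    rw [map_add, LinearMap.add_apply, map_add, he x hx, hf x hx, add_zero]
  algebraMap_mem' := fun q => by
    intro x hx
    rw [Algebra.algebraMap_eq_smul_one, rho_smul, map_one, Module.End.one_apply, map_smul, hx,
      smul_zero]

theorem mem_nrm {e : E} : e ∈ nrm A s ↔ ∀ x, s.ρ x = 0 → s.ρ (A.ρ e x) = 0 := Iff.rfl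

theorem end_ext {f g : Module.End ℂ Z.R} (h : ∀ x, f (s.ρ x) = g (s.ρ x)) : f = g := by
  ext z
  obtain ⟨x, rfl⟩ := s.surj z
  exact h x

/-- the action on the section -/
noncomputable def theta0 : nrm A s →+* Module.End ℂ Z.R where
  toFun := fun e => (exists_ind A s ((mem_nrm A s).1 e.2)).choose
  map_one' := by
    refine end_ext s fun x => ?_
    rw [(exists_ind A s ((mem_nrm A s).1 (1 : nrm A s).2)).choose_spec]
    show s.ρ (A.ρ 1 x) = s.ρ x
    rw [map_one]
    rfl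
  map_mul' := fun e f => by
    refine end_ext s fun x => ?_
    rw [(exists_ind A s ((mem_nrm A s).1 (e * f).2)).choose_spec, Module.End.mul_apply,
      (exists_ind A s ((mem_nrm A s).1 f.2)).choose_spec,
      (exists_ind A s ((mem_nrm A s).1 e.2)).choose_spec]
    show s.ρ (A.ρ ((e : E) * f) x) = _
    rw [map_mul, Module.End.mul_apply]
  map_zero' := by
    refine end_ext s fun x => ?_
    rw [(exists_ind A s ((mem_nrm A s).1 (0 : nrm A s).2)).choose_spec]
    show s.ρ (A.ρ 0 x) = 0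
    rw [map_zero]
    exact map_zero _
  map_add' := fun e f => by
    refine end_ext s fun x => ?_
    rw [(exists_ind A s ((mem_nrm A s).1 (e + f).2)).choose_spec, LinearMap.add_apply,
      (exists_ind A s ((mem_nrm A s).1 f.2)).choose_spec,
      (exists_ind A s ((mem_nrm A s).1 e.2)).choose_spec]
    show s.ρ (A.ρ ((e : E) + f) x) = _
    rw [map_add, LinearMap.add_apply, map_add]

theorem theta0_apply (e : nrm A s) (x : X.R) : theta0 A s e (s.ρ x) = s.ρ (A.ρ e x) :=
  (exists_ind A s ((mem_nrm A s).1 e.2)).choose_spec x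

/-- the algebra acting on the section -/
abbrev EZ : Type := nrm A s ⧸ RingHom.ker (theta0 A s)

/-- its action -/
noncomputable def thetaZ : EZ A s →+* Module.End ℂ Z.R := RingHom.kerLift (theta0 A s)

theorem thetaZ_inj : Function.Injective (thetaZ A s) := RingHom.kerLift_injective _

theorem thetaZ_iff (f : Module.End ℂ Z.R) : (∃ w, thetaZ A s w = f) ↔ Ind A s f := by
  constructor
  · rintro ⟨w, rfl⟩
    obtain ⟨e, rfl⟩ := Ideal.Quotient.mk_surjective w
    exact ⟨e, fun x => theta0_apply A s e x⟩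
  · rintro ⟨e, he⟩
    have hm : e ∈ nrm A s := (mem_nrm A s).2 fun x hx => by rw [← he, hx, map_zero]
    refine ⟨Ideal.Quotient.mk _ ⟨e, hm⟩, ?_⟩
    refine end_ext s fun x => ?_
    rw [he]
    exact theta0_apply A s ⟨e, hm⟩ x

instance finEZ [FiniteDimensional ℚ E] : FiniteDimensional ℚ (EZ A s) := by
  have h : FiniteDimensional ℚ (nrm A s) :=
    FiniteDimensional.finiteDimensional_submodule (Subalgebra.toSubmodule (nrm A s))
  exact Module.Finite.of_surjective
    (Ideal.Quotient.mkₐ ℚ (RingHom.ker (theta0 A s))).toLinearMap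
    (Ideal.Quotient.mk_surjective)

/-! ### The form -/

theorem F_sect (hLb : X.bar L = L) (x y : X.R) :
    F Z (s.ρ x) (s.ρ y) = a * F X x (L ^ k * y) := by
  have h1 : ∀ j : ℕ, X.bar (L ^ j * y) = L ^ j * X.bar y := by
    intro j
    induction j with
    | zero => rw [pow_zero, one_mul, one_mul]
    | succ j ih => rw [pow_succ', mul_assoc, X.bar_mul, hLb, ih, mul_assoc]
  unfold F
  rw [← s.dual, ← s.real, ← map_mul, s.tr, h1, ← mul_assoc, pow_central s.L_mem k (X.dual x),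
    mul_assoc]

theorem dual_pow_mul (hL : L ∈ X.H (1, 1)) (j : ℕ) (x : X.R) :
    X.dual (L ^ j * x) = (-1 : ℂ) ^ j • (L ^ j * X.dual x) := by
  induction j with
  | zero => simp
  | succ j ih =>
    have h1 : X.dual L = -L := by
      rw [X.dual_of hL]
      norm_num
    rw [pow_succ', mul_assoc, dual_mul, ih, h1, mul_smul_comm, neg_mul, smul_neg, ← mul_assoc,
      pow_succ, mul_neg_one, neg_smul]

theorem F_pow' (hL : L ∈ X.H (1, 1)) (hLb : X.bar L = L) (j : ℕ) (x y : X.R) :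
    F X (L ^ j * x) y = (-1) ^ j * F X x (L ^ j * y) := by
  have h1 : ∀ j : ℕ, X.bar (L ^ j * y) = L ^ j * X.bar y := by
    intro j
    induction j with
    | zero => rw [pow_zero, one_mul, one_mul]
    | succ j ih => rw [pow_succ', mul_assoc, X.bar_mul, hLb, ih, mul_assoc]
  unfold F
  rw [dual_pow_mul hL, h1, smul_mul_assoc, map_smul, smul_eq_mul, ← mul_assoc (X.dual x),
    ← pow_central hL j (X.dual x), mul_assoc]

/-! ### The projector along the kernel -/

/-- `ε` is an idempotent of the algebra whose kernel is the kernel of `L ^ k`. -/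
structure Cut (ℓ ε z : E) (k : ℕ) : Prop where
  eq : ε = z * ℓ ^ k
  mul : ℓ ^ k * ε = ℓ ^ k
  idem : ε * ε = ε

theorem exists_cut [IsSemisimpleRing E] (ℓ : E) (k : ℕ) : ∃ ε z : E, Cut ℓ ε z k := by
  obtain ⟨z, hz⟩ := exists_reg (ℓ ^ k)
  refine ⟨z * ℓ ^ k, z, rfl, ?_, ?_⟩
  · rw [← mul_assoc, hz]
  · calc z * ℓ ^ k * (z * ℓ ^ k) = z * (ℓ ^ k * z * ℓ ^ k) := by simp only [mul_assoc]
      _ = z * ℓ ^ k := by rw [hz]

section cut

variable {A s} {ℓ ε z : E} (hℓ : A.ρ ℓ = mu X L) (h : Cut ℓ ε z k)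

include hℓ h

theorem rho_cut (x : X.R) : s.ρ (A.ρ ε x) = s.ρ x := by
  rw [← sub_eq_zero, ← map_sub, s.zero_iff, mul_sub, sub_eq_zero, ← rho_pow A hℓ, ← rho_pow A hℓ,
    ← Module.End.mul_apply, ← map_mul, h.mul]

theorem cut_zero {x : X.R} (hx : s.ρ x = 0) : A.ρ ε x = 0 := by
  rw [h.eq, map_mul, Module.End.mul_apply, rho_pow A hℓ, (s.zero_iff x).1 hx, map_zero]

theorem cut_nrm {e : E} (he : e * ε = e) : ∃ f : Module.End ℂ Z.R,
    ∀ x, f (s.ρ x) = s.ρ (A.ρ e x) := by
  refine exists_ind A s fun x hx => ?_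
  rw [← he, map_mul, Module.End.mul_apply, cut_zero hℓ h hx, map_zero, map_zero]

/-- normal form of the induced operators -/
theorem ind_normal {f : Module.End ℂ Z.R} (hf : Ind A s f) :
    ∃ e : E, ε * e = e ∧ e * ε = e ∧ ∀ x, f (s.ρ x) = s.ρ (A.ρ e x) := by
  obtain ⟨e, he⟩ := hf
  refine ⟨ε * e * ε, ?_, ?_, fun x => ?_⟩
  · rw [← mul_assoc, ← mul_assoc, h.idem]
  · rw [mul_assoc, h.idem]
  · rw [map_mul, map_mul, Module.End.mul_apply, Module.End.mul_apply, rho_cut hℓ h, ← he,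
      rho_cut hℓ h]

theorem normal_unique {e e' : E} (h1 : ε * e = e) (h2 : ε * e' = e')
    (h3 : ∀ x, s.ρ (A.ρ e x) = s.ρ (A.ρ e' x)) : e = e' := by
  have h4 : ℓ ^ k * (e - e') = 0 := by
    apply A.inj
    rw [map_zero]
    ext x
    rw [map_mul, Module.End.mul_apply, rho_pow A hℓ]
    show L ^ k * A.ρ (e - e') x = (0 : X.R)
    rw [← s.zero_iff, map_sub, LinearMap.sub_apply, map_sub, h3, sub_self]
  have h5 : ε * (e - e') = 0 := by rw [h.eq, mul_assoc, h4, mul_zero]
  rw [mul_sub, h1, h2, sub_eq_zero] at h5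
  exact h5

end cut

/-! ### The action on the section -/

/-- **The algebra acts on the section.** -/
theorem exists_actZ [IsSemisimpleRing E] {R : Type} [Ring R] [Algebra ℚ R]
    (θ : R →+* Module.End ℂ Z.R) (hθ : Function.Injective θ)
    (hr : ∀ f, (∃ w, θ w = f) ↔ Ind A s f) {ℓ : E} (hℓ : A.ρ ℓ = mu X L) (hLb : X.bar L = L)
    (hω : s.ρ X.ω = Z.ω) : ∃ B : Act R Z, B.ρ = θ := by
  obtain ⟨ε, z, hc⟩ := exists_cut ℓ k
  have hdg : ∀ j, Ind A s (dg Z j) := fun j => ⟨A.L.p j, fun x => by rw [A.rho_p, s.dg']⟩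
  have hom : Ind A s (mu Z Z.ω) := by
    refine ⟨A.L.o, fun x => ?_⟩
    have h1 : A.ρ A.L.o = mu X X.ω := congrArg (fun l : Lef (Module.End ℂ X.R) n => l.o) A.hL
    rw [h1]
    show Z.ω * s.ρ x = s.ρ (X.ω * x)
    rw [map_mul, hω]
  -- regularity
  have hreg : ∀ u : R, ∃ w, u * w * u = u := by
    intro u
    obtain ⟨e, e1, e2, e3⟩ := ind_normal hℓ hc ((hr _).1 ⟨u, rfl⟩)
    obtain ⟨y, hy⟩ := exists_reg e
    obtain ⟨g, hg⟩ := cut_nrm (A := A) (s := s) hℓ hc (e := ε * y * ε)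
      (by rw [mul_assoc, hc.idem])
    obtain ⟨w, hw⟩ := (hr g).2 ⟨_, hg⟩
    refine ⟨w, hθ ?_⟩
    refine end_ext s fun x => ?_
    rw [map_mul, map_mul, Module.End.mul_apply, Module.End.mul_apply, e3, hw, hg, e3,
      ← Module.End.mul_apply, ← Module.End.mul_apply, ← map_mul, ← map_mul]
    congr 3
    calc e * (ε * y * ε) * e = (e * ε) * y * (ε * e) := by simp only [mul_assoc]
      _ = e := by rw [e1, e2, hy]
  obtain ⟨Lf, hLf⟩ := (lef Z).exists_lift θ hθ (fun j => (hr _).2 (hdg j)) ((hr _).2 hom) (by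
    intro j
    by_cases hj : j ≤ m
    · obtain ⟨k1, k2, k3, k4⟩ := kap_spec Z hj
      obtain ⟨p, hp⟩ := (hr _).2 (hdg (m - j))
      obtain ⟨b, hb⟩ := (hr _).2 (hdg (m + j))
      obtain ⟨o, ho⟩ := (hr _).2 hom
      obtain ⟨w, hw⟩ := hreg (o ^ j * p)
      refine ⟨p * w * b, ?_⟩
      have hw' := congrArg θ hw
      rw [map_mul, map_mul, map_mul, map_pow, ho, hp] at hw'
      rw [map_mul, map_mul, hp, hb]
      set D : Module.End ℂ Z.R := dg Z (m - j) with hD
      set D' : Module.End ℂ Z.R := dg Z (m + j) with hD'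
      set O : Module.End ℂ Z.R := mu Z Z.ω ^ j with hO
      set K : Module.End ℂ Z.R := kap Z j with hK
      show D * θ w * D' = K
      calc D * θ w * D' = K * (O * D) * θ w * (O * K) := by rw [k3, k4]
        _ = K * (O * D) * θ w * (O * (D * K)) := by rw [k1]
        _ = K * (O * D * θ w * (O * D)) * K := by simp only [mul_assoc]
        _ = K * (O * D) * K := by rw [hw']
        _ = K := by rw [k3, k1]
    · refine ⟨0, ?_⟩
      show θ 0 = kap Z j
      rw [map_zero]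
      unfold kap
      rw [dif_neg hj])
  obtain ⟨c, hc'⟩ := (hr (mu Z Z.c)).2 ⟨A.c, fun x => by
    rw [A.hc]
    show Z.c * s.ρ x = s.ρ (X.c * x)
    rw [map_mul, s.c]⟩
  refine ⟨{ ρ := θ, inj := hθ, typ_mem := fun w p q y hy => ?_, L := Lf, hL := hLf, c := c,
            hc := hc', adj := fun w => ?_ }, rfl⟩
  · obtain ⟨e, he⟩ := (hr _).1 ⟨w, rfl⟩
    obtain ⟨x, hx, rfl⟩ := s.exists_lift hy
    rw [he]
    exact s.typ' (A.typ_mem e p q x hx)
  · obtain ⟨e, e1, e2, e3⟩ := ind_normal hℓ hc ((hr _).1 ⟨w, rfl⟩)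
    obtain ⟨b, hb⟩ := A.adj (e * z)
    have hez : e = e * z * ℓ ^ k := by
      conv_lhs => rw [← e2, hc.eq]
      rw [mul_assoc]
    obtain ⟨g, hg⟩ := cut_nrm (A := A) (s := s) hℓ hc (e := (-1) ^ k * (b * ℓ ^ k))
      (by rw [mul_assoc, mul_assoc, hc.mul])
    obtain ⟨w', hw'⟩ := (hr g).2 ⟨_, hg⟩
    refine ⟨w', fun x y => ?_⟩
    obtain ⟨x, rfl⟩ := s.surj x
    obtain ⟨y, rfl⟩ := s.surj y
    rw [e3, hw', hg, F_sect s hLb, F_sect s hLb]
    congr 1
    have f1 : A.ρ e x = A.ρ (e * z) (L ^ k * x) := by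
      conv_lhs => rw [hez]
      rw [map_mul, Module.End.mul_apply, rho_pow A hℓ]
    have f2 : A.ρ ((-1) ^ k * (b * ℓ ^ k)) y = (-1 : ℂ) ^ k • A.ρ b (L ^ k * y) := by
      rcases Nat.even_or_odd k with he | ho
      · rw [he.neg_one_pow, he.neg_one_pow, one_smul, one_mul, map_mul, Module.End.mul_apply,
          rho_pow A hℓ]
      · rw [ho.neg_one_pow, ho.neg_one_pow, neg_smul, one_smul, neg_one_mul, map_neg,
          LinearMap.neg_apply, map_mul, Module.End.mul_apply, rho_pow A hℓ]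
    have f3 : F X x (L ^ k * ((-1 : ℂ) ^ k • A.ρ b (L ^ k * y))) =
        (-1) ^ k * F X x (L ^ k * A.ρ b (L ^ k * y)) := by
      rcases Nat.even_or_odd k with he | ho
      · rw [he.neg_one_pow, one_smul, one_mul]
      · rw [ho.neg_one_pow, neg_smul, one_smul, mul_neg]
        have := F_smul_right X (-1) x (L ^ k * A.ρ b (L ^ k * y))
        simpa using this
    rw [f1, hb, F_pow' s.L_mem hLb, f2, f3]

end actZ

end Pool.Agent.E8helper34.OH
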