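import Pool.Agent.E8helper34.OH.Small

/-!
# The Hodge structures generated by holomorphic forms
-/

set_option autoImplicit false

open scoped ComplexConjugate
open Module Pool.Agent.W539.DI Pool.Agent.R929.DH Pool.Agent.R941.OH Pool.Agent.R941.OH.HStr

namespace Pool.Agent.E8helper34.OH

variable {n : ℕ}

/-- There are morphisms `u : H^s (X, ℚ) → H^s (Y, ℚ)` and `v : H^s (Y, ℚ) → H^s (X, ℚ)` of rational
Hodge structures (linear maps of the cohomology which preserve rational classes and the types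
`(p, q)` with `p + q = s`) which restrict to inverse bijections between `A` and `B`. -/
def IsoOn {X Y : KRing n} (r : RatStr X) (t : RatStr Y) (s : ℕ) (A : Submodule ℂ X.R)
    (B : Submodule ℂ Y.R) : Prop :=
  ∃ (u : X.R →ₗ[ℂ] Y.R) (v : Y.R →ₗ[ℂ] X.R), RatOp r t u ∧ RatOp t r v ∧
    (∀ (p q : ℤ) (x : X.R), p + q = s → x ∈ X.H (p, q) → u x ∈ Y.H (p, q)) ∧
    (∀ (p q : ℤ) (y : Y.R), p + q = s → y ∈ Y.H (p, q) → v y ∈ X.H (p, q)) ∧
    (∀ x ∈ A, u x ∈ B ∧ v (u x) = x) ∧ (∀ y ∈ B, v y ∈ A ∧ u (v y) = y)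

/-- the holomorphic `s`-forms `x` with `L ^ k x = 0` -/
noncomputable def killed (X : KRing n) (L : X.R) (k s : ℕ) : Submodule ℂ X.R :=
  X.H (s, 0) ⊓ LinearMap.ker (LinearMap.mulLeft ℂ (L ^ k))

theorem mem_killed {X : KRing n} {L : X.R} {k s : ℕ} {x : X.R} :
    x ∈ killed X L k s ↔ x ∈ X.H (s, 0) ∧ L ^ k * x = 0 := Iff.rfl

theorem exists_split {X : KRing n} (r : RatStr X) {L : X.R} (hL : r.IsRat L)
    (hL1 : L ∈ X.H (1, 1)) (k : ℕ) (D : ℕ → Prop) :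
    ∃ e : X.R →ₗ[ℂ] X.R, RatOp r r e ∧ TypeOp e ∧ (∀ x, e (proj X D x) = e x) ∧
      (∀ x, proj X D (e x) = e x) ∧ (∀ x, L ^ k * e x = L ^ k * proj X D x) ∧
      (∀ x, proj X D x = x → L ^ k * x = 0 → e x = 0) := by
  classical
  obtain ⟨A, hA⟩ := exists_actX r
  have _ := A.semisimple
  obtain ⟨M, hM⟩ := exists_EHS r (ratOp_mu r hL) (typeOp_mu hL1)
  set P := A.L.pD D with hP
  have hPρ : rhoX r P = proj X D := by rw [← hA, hP, A.rho_pD]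
  have hMk : ∀ (j : ℕ) (x : X.R), rhoX r (M ^ j) x = L ^ j * x := by
    intro j x
    rw [map_pow, hM, mu_pow]
  obtain ⟨g, hg⟩ := exists_reg (M ^ k * P)
  have hPP : P * P = P := A.L.pD_self D
  refine ⟨rhoX r (P * g * (M ^ k * P)), rhoX_rat r _, rhoX_type r _, ?_, ?_, ?_, ?_⟩
  · intro x
    rw [← hPρ, ← Module.End.mul_apply, ← map_mul]
    congr 2
    rw [mul_assoc, mul_assoc (M ^ k), hPP]
  · intro x
    rw [← hPρ, ← Module.End.mul_apply, ← map_mul]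
    congr 2
    rw [← mul_assoc, ← mul_assoc P P, hPP]
  · intro x
    rw [← hMk, ← hMk, ← hPρ, ← Module.End.mul_apply, ← map_mul, ← Module.End.mul_apply, ← map_mul]
    congr 2
    have e1 : M ^ k * (P * g * (M ^ k * P)) = M ^ k * P * g * (M ^ k * P) := by
      simp only [mul_assoc]
    rw [e1, hg]
  · intro x hx h0
    have hx' : rhoX r P x = x := by rw [hPρ, hx]
    rw [map_mul, Module.End.mul_apply, map_mul (rhoX r) (M ^ k), Module.End.mul_apply, hx', hMk, h0,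
      map_zero]

theorem form_of_typ {X : KRing n} {s : ℕ} {D : ℕ → Prop} (hD : ∀ k : ℕ, 1 ≤ k → ¬ D (s + 2 * k))
    {z : X.R} (hz : z ∈ typ X s 0) : proj X D z ∈ X.H (s, 0) := by
  classical
  unfold typ at hz
  refine Submodule.iSup_induction (p := fun k : ℤ => X.H (s + k, 0 + k))
    (motive := fun z => proj X D z ∈ X.H (s, 0)) hz ?_ ?_ ?_
  · intro k z hz
    rw [zero_add] at hz
    by_cases hne : z = 0
    · rw [hne, map_zero]; exact Submodule.zero_mem _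
    have hr : ¬ ((s : ℤ) + k < 0 ∨ k < 0 ∨ (n : ℤ) < s + k ∨ (n : ℤ) < k) :=
      fun h => hne (zero_of X h hz)
    obtain ⟨j, rfl⟩ : ∃ j : ℕ, k = j := ⟨k.toNat, by omega⟩
    rw [proj_of X D (m := s + 2 * j) (by push_cast; ring) hz]
    rcases Nat.eq_zero_or_pos j with hj | hj
    · subst hj
      split_ifs
      · simpa using hz
      · exact Submodule.zero_mem _
    · rw [if_neg (hD j hj)]
      exact Submodule.zero_mem _
  · rw [map_zero]; exact Submodule.zero_mem _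
  · intro x y hx hy
    rw [map_add]; exact Submodule.add_mem _ hx hy

theorem proj_form {X : KRing n} {s : ℕ} {D : ℕ → Prop} (hD : D s) {x : X.R}
    (hx : x ∈ X.H (s, 0)) : proj X D x = x := by
  classical
  rw [proj_of X D (m := s) (by ring) hx, if_pos hD]

theorem proj_form' {X : KRing n} {s : ℕ} {x : X.R} (hx : x ∈ X.H (s, 0)) :
    proj X (fun k => k = s) x = x := proj_form (D := fun k => k = s) rfl hx

theorem same_form {X Y : KRing n} {s : ℕ} {D : ℕ → Prop} (hDs : D s)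
    (hD : ∀ k : ℕ, 1 ≤ k → ¬ D (s + 2 * k)) {u : X.R →ₗ[ℂ] Y.R} {v : Y.R →ₗ[ℂ] X.R}
    (hu : TypeOp u) (h1 : v ∘ₗ u = proj X D) (h2 : u ∘ₗ v = proj Y D) {x : X.R}
    (hx : x ∈ X.H (s, 0)) : u x ∈ Y.H (s, 0) ∧ v (u x) = x := by
  have h3 : v (u x) = x := by
    have := congrArg (fun g : X.R →ₗ[ℂ] X.R => g x) h1
    exact this.trans (proj_form hDs hx)
  have h4 : proj Y D (u x) = u x := by
    have := congrArg (fun g : Y.R →ₗ[ℂ] Y.R => g (u x)) h2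
    simp only [LinearMap.comp_apply] at this
    rw [h3] at this
    exact this.symm
  refine ⟨?_, h3⟩
  rw [← h4]
  exact form_of_typ hD (hu s 0 x hx)

/-- an operator which respects `p - q`, with values in degree `s`, respects types in degree `s` -/
theorem mem_of_deg {X Y : KRing n} {s : ℕ} {u : X.R →ₗ[ℂ] Y.R} (hu : TypeOp u)
    (h : ∀ x, proj Y (fun k => k = s) (u x) = u x) {p q : ℤ} {x : X.R} (hpq : p + q = s)
    (hx : x ∈ X.H (p, q)) : u x ∈ Y.H (p, q) :=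
  mem_of_proj hpq (hu p q x hx) (h x)

section section'

variable {m k s : ℕ} {X Y : KRing n} {L : X.R} {L' : Y.R} {Z Z' : KRing m} {a : ℂ}
  {r : RatStr X} {t : RatStr Y} {z : RatStr Z} {z' : RatStr Z'}

theorem section_forms (σ : Sect X L Z k a) (σ' : Sect Y L' Z' k a)
    (hs : ∀ x, r.IsRat x → z.IsRat (σ.ρ x)) (hs' : ∀ y, t.IsRat y → z'.IsRat (σ'.ρ y))
    (hL : r.IsRat L) (hL' : t.IsRat L') {D : ℕ → Prop} (hDs : D s)
    (hD : ∀ k : ℕ, 1 ≤ k → ¬ D (s + 2 * k)) (h : SameHodge z z' D) :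
    ∃ (U : X.R →ₗ[ℂ] Y.R) (V : Y.R →ₗ[ℂ] X.R), RatOp r t U ∧ TypeOp U ∧ RatOp t r V ∧ TypeOp V ∧
      (∀ x, proj Y (fun k => k = s) (U x) = U x) ∧ (∀ y, proj X (fun k => k = s) (V y) = V y) ∧
      (∀ x ∈ X.H (s, 0), ∀ y ∈ Y.H (s, 0), L' ^ k * (y - U x) = 0 → L ^ k * (V y - x) = 0) ∧
      (∀ y ∈ Y.H (s, 0), ∀ x ∈ X.H (s, 0), L ^ k * (x - V y) = 0 → L' ^ k * (U x - y) = 0) := by
  obtain ⟨u, v, hu, hu', hv, hv', hvu, huv⟩ := h
  have key : ∀ (X Y : KRing n) (L : X.R) (L' : Y.R) (Z Z' : KRing m) (r : RatStr X) (t : RatStr Y)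
      (z : RatStr Z) (z' : RatStr Z') (s₁ : Sect X L Z k a) (s₂ : Sect Y L' Z' k a)
      (_ : ∀ x, r.IsRat x → z.IsRat (s₁.ρ x)) (_ : ∀ y, t.IsRat y → z'.IsRat (s₂.ρ y))
      (_ : t.IsRat L') (u : Z.R →ₗ[ℂ] Z'.R) (v : Z'.R →ₗ[ℂ] Z.R) (_ : RatOp z z' u) (_ : TypeOp u)
      (_ : v ∘ₗ u = proj Z D) (_ : u ∘ₗ v = proj Z' D),
      ∃ U : X.R →ₗ[ℂ] Y.R, RatOp r t U ∧ TypeOp U ∧
        (∀ x, proj Y (fun k => k = s) (U x) = U x) ∧
        ∀ x ∈ X.H (s, 0), s₂.ρ (U x) = u (s₁.ρ x) := by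
    intro X Y L L' Z Z' r t z z' s₁ s₂ hs hs' hL' u v hu hu' hvu huv
    obtain ⟨ℓ, l1, l2, l3, l4⟩ := s₂.exists_lift_op (r := t) (z := z') hs' hL' (fun k => k = s)
    refine ⟨ℓ ∘ₗ u ∘ₗ s₁.ρ.toLinearMap, ?_, ?_, fun x => l3 _, ?_⟩
    · intro x hx
      exact l1 _ (hu _ (hs _ hx))
    · intro p q x hx
      exact l2 p q _ (typeOp_mem hu' (s₁.typ' (mem_typ X hx)))
    · intro x hx
      obtain ⟨h1, _⟩ := same_form hDs hD hu' hvu huv (s₁.mem _ _ x hx)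
      obtain ⟨y, hy, hy'⟩ := s₂.exists_lift h1
      show s₂.ρ (ℓ (u (s₁.ρ x))) = u (s₁.ρ x)
      rw [← hy', l4 y (proj_form' hy)]
  obtain ⟨U, U1, U2, U3, U4⟩ := key X Y L L' Z Z' r t z z' σ σ' hs hs' hL' u v hu hu' hvu huv
  obtain ⟨V, V1, V2, V3, V4⟩ := key Y X L' L Z' Z t r z' z σ' σ hs' hs hL v u hv hv' huv hvu
  refine ⟨U, V, U1, U2, V1, V2, U3, V3, ?_, ?_⟩
  · intro x hx y hy h
    rw [← σ'.zero_iff, map_sub, sub_eq_zero, U4 x hx] at h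
    rw [← σ.zero_iff, map_sub, V4 y hy, h, sub_eq_zero]
    exact (same_form hDs hD hu' hvu huv (σ.mem _ _ x hx)).2
  · intro y hy x hx h
    rw [← σ.zero_iff, map_sub, sub_eq_zero, V4 y hy] at h
    rw [← σ'.zero_iff, map_sub, U4 x hx, h, sub_eq_zero]
    exact (same_form hDs hD hv' huv hvu (σ'.mem _ _ y hy)).2

/-- the two sided inverse on forms -/
theorem forms_inv {X Y : KRing n} {L : X.R} {L' : Y.R} {k s : ℕ} {U : X.R →ₗ[ℂ] Y.R}
    {V : Y.R →ₗ[ℂ] X.R} {e : X.R →ₗ[ℂ] X.R} {f : Y.R →ₗ[ℂ] Y.R} {u W : X.R →ₗ[ℂ] Y.R}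
    {v W' : Y.R →ₗ[ℂ] X.R}
    (hW : ∀ x ∈ X.H (s, 0), W x = f (U (e x)) + (u (x - e x) - f (u (x - e x))))
    (hW' : ∀ y ∈ Y.H (s, 0), W' y = e (V (f y)) + (v (y - f y) - e (v (y - f y))))
    (hWm : ∀ x ∈ X.H (s, 0), W x ∈ Y.H (s, 0))
    (hU : ∀ x ∈ X.H (s, 0), U x ∈ Y.H (s, 0)) (he : ∀ x ∈ X.H (s, 0), e x ∈ X.H (s, 0))
    (hf : ∀ y ∈ Y.H (s, 0), f y ∈ Y.H (s, 0)) (hV : ∀ y ∈ Y.H (s, 0), V y ∈ X.H (s, 0))
    (e5 : ∀ x ∈ X.H (s, 0), L ^ k * e x = L ^ k * x)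
    (e6 : ∀ x ∈ X.H (s, 0), L ^ k * x = 0 → e x = 0)
    (f5 : ∀ y ∈ Y.H (s, 0), L' ^ k * f y = L' ^ k * y)
    (f6 : ∀ y ∈ Y.H (s, 0), L' ^ k * y = 0 → f y = 0)
    (hUV : ∀ x ∈ X.H (s, 0), ∀ y ∈ Y.H (s, 0), L' ^ k * (y - U x) = 0 → L ^ k * (V y - x) = 0)
    (hu : ∀ x ∈ killed X L k s, u x ∈ killed Y L' k s ∧ v (u x) = x) {x : X.R}
    (hx : x ∈ X.H (s, 0)) : W' (W x) = x := by
  have hex := he x hx
  have hK1 : x - e x ∈ killed X L k s := by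
    refine mem_killed.2 ⟨Submodule.sub_mem _ hx hex, ?_⟩
    rw [mul_sub, e5 x hx, sub_self]
  obtain ⟨hK2, hK3⟩ := hu _ hK1
  have hUx := hU _ hex
  have hfUx := hf _ hUx
  have g1 : f (u (x - e x)) = 0 := f6 _ hK2.1 hK2.2
  have g2 : f (f (U (e x))) = f (U (e x)) := by
    rw [← sub_eq_zero, ← map_sub]
    refine f6 _ (Submodule.sub_mem _ hfUx hUx) ?_
    rw [mul_sub, f5 _ hUx, sub_self]
  have g3 : e (x - e x) = 0 := e6 _ hK1.1 hK1.2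
  have g4 : L ^ k * (V (f (U (e x))) - e x) = 0 := by
    refine hUV _ hex _ hfUx ?_
    rw [mul_sub, f5 _ hUx, sub_self]
  have g5 : e (V (f (U (e x)))) = e x := by
    have h1 : e (V (f (U (e x))) - e x) = 0 :=
      e6 _ (Submodule.sub_mem _ (hV _ hfUx) hex) g4
    rw [map_sub, sub_eq_zero] at h1
    rw [h1, eq_comm, ← sub_eq_zero, ← map_sub, g3]
  have g6 : W x = f (U (e x)) + u (x - e x) := by rw [hW x hx, g1, sub_zero]
  have g7 : f (W x) = f (U (e x)) := by rw [g6, map_add, g1, g2, add_zero]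
  rw [hW' _ (hWm x hx), g7, g6, add_sub_cancel_left, hK3, g3, sub_zero, g5]
  abel

theorem forms_of_section (σ : Sect X L Z k a) (σ' : Sect Y L' Z' k a)
    (hs : ∀ x, r.IsRat x → z.IsRat (σ.ρ x)) (hs' : ∀ y, t.IsRat y → z'.IsRat (σ'.ρ y))
    (hL : r.IsRat L) (hL' : t.IsRat L') {D : ℕ → Prop} (hDs : D s)
    (hD : ∀ k : ℕ, 1 ≤ k → ¬ D (s + 2 * k)) (h : SameHodge z z' D)
    (hK : IsoOn r t s (killed X L k s) (killed Y L' k s)) :
    IsoOn r t s (X.H (s, 0)) (Y.H (s, 0)) := by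
  classical
  obtain ⟨U, V, U1, U2, V1, V2, U3, V3, UV, VU⟩ := section_forms σ σ' hs hs' hL hL' hDs hD h
  obtain ⟨u, v, u1, v1, u2, v2, hu, hv⟩ := hK
  obtain ⟨e, e1, e2, e3, e4, e5, e6⟩ := exists_split r hL σ.L_mem k (fun j => j = s)
  obtain ⟨f, f1, f2, f3, f4, f5, f6⟩ := exists_split t hL' σ'.L_mem k (fun j => j = s)
  have rat : ∀ (X Y : KRing n) (r : RatStr X) (t : RatStr Y) (a b : X.R →ₗ[ℂ] Y.R), RatOp r t a →
      RatOp r t b → RatOp r t (a + b) ∧ RatOp r t (a - b) := by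
    intro X Y r t a b ha hb
    refine ⟨fun x hx => rat_add t (ha x hx) (hb x hx), fun x hx => ?_⟩
    have := rat_add t (ha x hx) (rat_smul t (-1) (hb x hx))
    rw [LinearMap.sub_apply, sub_eq_add_neg]
    simpa using this
  -- one direction
  have key : ∀ (X Y : KRing n) (r : RatStr X) (t : RatStr Y) (U : X.R →ₗ[ℂ] Y.R)
      (e : X.R →ₗ[ℂ] X.R) (f : Y.R →ₗ[ℂ] Y.R) (u : X.R →ₗ[ℂ] Y.R) (_ : RatOp r t U)
      (_ : TypeOp U) (_ : ∀ x, proj Y (fun k => k = s) (U x) = U x) (_ : RatOp r r e)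
      (_ : TypeOp e) (_ : ∀ x, proj X (fun k => k = s) (e x) = e x) (_ : RatOp t t f)
      (_ : TypeOp f) (_ : ∀ x, proj Y (fun k => k = s) (f x) = f x) (_ : RatOp r t u)
      (_ : ∀ (p q : ℤ) (x : X.R), p + q = s → x ∈ X.H (p, q) → u x ∈ Y.H (p, q)),
      ∃ W : X.R →ₗ[ℂ] Y.R, RatOp r t W ∧
        (∀ (p q : ℤ) (x : X.R), p + q = s → x ∈ X.H (p, q) → W x ∈ Y.H (p, q)) ∧
        ∀ x ∈ X.H (s, 0), W x = f (U (e x)) + (u (x - e x) - f (u (x - e x))) := by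
    intro X Y r t U e f u U1 U2 U3 e1 e2 e4 f1 f2 f4 u1 u2
    set P := proj X (fun k => k = s) with hP
    have h1 : RatOp r r (P - e) := (rat X X r r P e (ratOp_proj r _) e1).2
    have h2 : RatOp r t (u ∘ₗ (P - e)) := ratOp_comp r u1 h1
    have h3 : RatOp r t (f ∘ₗ (u ∘ₗ (P - e))) := ratOp_comp r f1 h2
    have h4 : RatOp r t (f ∘ₗ (U ∘ₗ e)) := ratOp_comp r f1 (ratOp_comp r U1 e1)
    refine ⟨f ∘ₗ (U ∘ₗ e) + (u ∘ₗ (P - e) - f ∘ₗ (u ∘ₗ (P - e))),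
      (rat X Y r t _ _ h4 (rat X Y r t _ _ h2 h3).2).1, ?_, ?_⟩
    · intro p q x hpq hx
      have px : P x = x := by rw [hP, proj_of X _ hpq hx, if_pos rfl]
      have hex : e x ∈ X.H (p, q) := mem_of_deg e2 e4 hpq hx
      have h5 : u (x - e x) ∈ Y.H (p, q) := u2 p q _ hpq (Submodule.sub_mem _ hx hex)
      show f (U (e x)) + (u (P x - e x) - f (u (P x - e x))) ∈ Y.H (p, q)
      rw [px]
      exact Submodule.add_mem _ (mem_of_deg f2 f4 hpq (mem_of_deg U2 U3 hpq hex))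
        (Submodule.sub_mem _ h5 (mem_of_deg f2 f4 hpq h5))
    · intro x hx
      show f (U (e x)) + (u (P x - e x) - f (u (P x - e x))) = _
      rw [hP, proj_form' hx]
  obtain ⟨W, W1, W2, W3⟩ := key X Y r t U e f u U1 U2 U3 e1 e2 e4 f1 f2 f4 u1 u2
  obtain ⟨W', W1', W2', W3'⟩ := key Y X t r V f e v V1 V2 V3 f1 f2 f4 e1 e2 e4 v1 v2
  have e5' : ∀ x ∈ X.H (s, 0), L ^ k * e x = L ^ k * x := fun x hx => by rw [e5, proj_form' hx]
  have f5' : ∀ y ∈ Y.H (s, 0), L' ^ k * f y = L' ^ k * y := fun y hy => by rw [f5, proj_form' hy]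
  have e6' : ∀ x ∈ X.H (s, 0), L ^ k * x = 0 → e x = 0 := fun x hx h => e6 x (proj_form' hx) h
  have f6' : ∀ y ∈ Y.H (s, 0), L' ^ k * y = 0 → f y = 0 := fun y hy h => f6 y (proj_form' hy) h
  have hs0 : (s : ℤ) + 0 = s := add_zero _
  have Wm : ∀ x ∈ X.H (s, 0), W x ∈ Y.H (s, 0) := fun x hx => W2 s 0 x hs0 hx
  have Wm' : ∀ y ∈ Y.H (s, 0), W' y ∈ X.H (s, 0) := fun y hy => W2' s 0 y hs0 hy
  have he : ∀ x ∈ X.H (s, 0), e x ∈ X.H (s, 0) := fun x hx => mem_of_deg e2 e4 hs0 hx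
  have hf : ∀ y ∈ Y.H (s, 0), f y ∈ Y.H (s, 0) := fun y hy => mem_of_deg f2 f4 hs0 hy
  have hU : ∀ x ∈ X.H (s, 0), U x ∈ Y.H (s, 0) := fun x hx => mem_of_deg U2 U3 hs0 hx
  have hV : ∀ y ∈ Y.H (s, 0), V y ∈ X.H (s, 0) := fun y hy => mem_of_deg V2 V3 hs0 hy
  exact ⟨W, W', W1, W1', W2, W2', fun x hx => ⟨Wm x hx,
    forms_inv W3 W3' Wm hU he hf hV e5' e6' f5' f6' UV hu hx⟩, fun y hy => ⟨Wm' y hy,
    forms_inv W3' W3 Wm' hV hf he hU f5' f6' e5' e6' VU hv hy⟩⟩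

end section'

end Pool.Agent.E8helper34.OH
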