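import Pool.Agent.E8helper34.OH.Forms

/-!
# The smallest sub-Hodge structures which contain the holomorphic forms
-/

set_option autoImplicit false

open scoped ComplexConjugate
open Module Pool.Agent.W539.DI Pool.Agent.R929.DH Pool.Agent.R941.OH Pool.Agent.R941.OH.HStr

namespace Pool.Agent.E8helper34.OH

variable {n : ℕ}

/-! ### All degrees -/

theorem isoOn_of_same {X Y : KRing n} {r : RatStr X} {t : RatStr Y} {s : ℕ} {D : ℕ → Prop}
    (hDs : D s) (hD : ∀ k : ℕ, 1 ≤ k → ¬ D (s + 2 * k)) (h : SameHodge r t D) :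
    IsoOn r t s (X.H (s, 0)) (Y.H (s, 0)) := by
  obtain ⟨u, v, hu, hu', hv, hv', hvu, huv⟩ := h
  have key : ∀ (X Y : KRing n) (r : RatStr X) (t : RatStr Y) (u : X.R →ₗ[ℂ] Y.R)
      (v : Y.R →ₗ[ℂ] X.R) (_ : RatOp r t u) (_ : TypeOp u) (_ : v ∘ₗ u = proj X D)
      (_ : u ∘ₗ v = proj Y D), RatOp r t (proj Y (fun k => k = s) ∘ₗ u) ∧
      (∀ (p q : ℤ) (x : X.R), p + q = s → x ∈ X.H (p, q) →
        (proj Y (fun k => k = s) ∘ₗ u) x ∈ Y.H (p, q)) ∧
      ∀ x ∈ X.H (s, 0), (proj Y (fun k => k = s) ∘ₗ u) x = u x ∧ u x ∈ Y.H (s, 0) ∧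
        v (u x) = x := by
    intro X Y r t u v hu hu' hvu huv
    refine ⟨ratOp_comp r (ratOp_proj t _) hu, fun p q x hpq hx => ?_, fun x hx => ?_⟩
    · exact mem_of_deg (typeOp_comp (typeOp_proj Y _) hu') (fun x => proj_proj Y _ _) hpq hx
    · obtain ⟨h1, h2⟩ := same_form hDs hD hu' hvu huv hx
      exact ⟨proj_form' h1, h1, h2⟩
  obtain ⟨a1, a2, a3⟩ := key X Y r t u v hu hu' hvu huv
  obtain ⟨b1, b2, b3⟩ := key Y X t r v u hv hv' huv hvu
  refine ⟨_, _, a1, b1, a2, b2, fun x hx => ?_, fun y hy => ?_⟩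
  · obtain ⟨c1, c2, c3⟩ := a3 x hx
    rw [c1, (b3 _ c2).1]
    exact ⟨c2, c3⟩
  · obtain ⟨c1, c2, c3⟩ := b3 y hy
    rw [c1, (a3 _ c2).1]
    exact ⟨c2, c3⟩

theorem typ_top {Y : KRing n} {z : Y.R} (hz : z ∈ typ Y n 0) : z ∈ Y.H (n, 0) := by
  unfold typ at hz
  refine Submodule.iSup_induction (p := fun k : ℤ => Y.H (n + k, 0 + k))
    (motive := fun z => z ∈ Y.H (n, 0)) hz ?_ (Submodule.zero_mem _) ?_
  · intro k z hz
    by_cases hk : k = 0
    · subst hk
      simpa using hz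
    · rw [zero_of Y (by omega) hz]
      exact Submodule.zero_mem _
  · intro x y hx hy
    exact Submodule.add_mem _ hx hy

theorem isoOn_top {X Y : KRing n} {r : RatStr X} {t : RatStr Y} (Φ : FM X Y)
    (h1 : RatOp r t (Φ.φ : X.R →ₗ[ℂ] Y.R)) (h2 : RatOp t r (Φ.φ.symm : Y.R →ₗ[ℂ] X.R)) :
    IsoOn r t n (X.H (n, 0)) (Y.H (n, 0)) := by
  refine ⟨proj Y (fun k => k = n) ∘ₗ (Φ.φ : X.R →ₗ[ℂ] Y.R),
    proj X (fun k => k = n) ∘ₗ (Φ.φ.symm : Y.R →ₗ[ℂ] X.R), ratOp_comp r (ratOp_proj t _) h1,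
    ratOp_comp t (ratOp_proj r _) h2, fun p q x hpq hx => ?_, fun p q x hpq hx => ?_,
    fun x hx => ?_, fun y hy => ?_⟩
  · exact mem_of_deg (typeOp_comp (typeOp_proj Y _) (typeOp_phi Φ)) (fun x => proj_proj Y _ _) hpq hx
  · exact mem_of_deg (typeOp_comp (typeOp_proj X _) (typeOp_symm Φ)) (fun x => proj_proj X _ _)
      hpq hx
  · have h3 : Φ.φ x ∈ Y.H (n, 0) := typ_top (typeOp_phi Φ n 0 x hx)
    have h4 : (proj Y (fun k => k = n) ∘ₗ (Φ.φ : X.R →ₗ[ℂ] Y.R)) x = Φ.φ x := proj_form' h3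
    rw [h4]
    refine ⟨h3, ?_⟩
    show proj X (fun k => k = n) (Φ.φ.symm (Φ.φ x)) = x
    rw [LinearEquiv.symm_apply_apply, proj_form' hx]
  · have h3 : Φ.φ.symm y ∈ X.H (n, 0) := typ_top (typeOp_symm Φ n 0 y hy)
    have h4 : (proj X (fun k => k = n) ∘ₗ (Φ.φ.symm : Y.R →ₗ[ℂ] X.R)) y = Φ.φ.symm y :=
      proj_form' h3
    rw [h4]
    refine ⟨h3, ?_⟩
    show proj Y (fun k => k = n) (Φ.φ (Φ.φ.symm y)) = y
    rw [LinearEquiv.apply_symm_apply, proj_form' hy]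

/-- **The holomorphic forms.** -/
theorem forms_all {X Y : KRing n} (r : RatStr X) (t : RatStr Y) (Φ : FM X Y)
    (h1 : RatOp r t (Φ.φ : X.R →ₗ[ℂ] Y.R)) (h2 : RatOp t r (Φ.φ.symm : Y.R →ₗ[ℂ] X.R))
    {L : X.R} {L' : Y.R} (hL : r.IsRat L) (hL' : t.IsRat L') (hi : Intertwines Φ L L')
    (hs : ∀ s k : ℕ, 1 ≤ s → 1 ≤ k → s + k + 2 = n → SectionPair r t L L' k (s + 2) ∧
      IsoOn r t s (killed X L k s) (killed Y L' k s)) (s : ℕ) :
    IsoOn r t s (X.H (s, 0)) (Y.H (s, 0)) := by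
  rcases Nat.eq_zero_or_pos s with h0 | h0
  · subst h0
    exact isoOn_of_same (D := fun m => m = 0) rfl (fun k hk => by omega) (same_zero r t)
  by_cases h3 : n < s
  · have hX : X.H (s, 0) = ⊥ := bot_of X (by omega)
    have hY : Y.H (s, 0) = ⊥ := bot_of Y (by omega)
    rw [hX, hY]
    refine ⟨0, 0, fun x _ => rat_zero t, fun x _ => rat_zero r, fun p q x _ _ =>
      Submodule.zero_mem _, fun p q x _ _ => Submodule.zero_mem _, fun x hx => ?_, fun y hy => ?_⟩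
    · rw [(Submodule.mem_bot ℂ).1 hx]
      simp
    · rw [(Submodule.mem_bot ℂ).1 hy]
      simp
  by_cases h4 : s = n
  · subst h4
    exact isoOn_top Φ h1 h2
  by_cases h5 : s + 1 = n
  · refine isoOn_of_same (D := fun m => m < n ∧ (n - m) % 2 = 1) ?_ (fun k hk => by omega)
      (HStr.main n X Y r t Φ h1 h2).1
    show s < n ∧ (n - s) % 2 = 1
    omega
  by_cases h6 : s + 2 = n
  · refine isoOn_of_same (D := fun m => m < n ∧ (n - m) % 4 = 2) ?_ (fun k hk => by omega)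
      (HStr.main n X Y r t Φ h1 h2).2.1
    show s < n ∧ (n - s) % 4 = 2
    omega
  obtain ⟨⟨Z, Z', z, z', a, σ, σ', g, g'⟩, hK⟩ := hs s (n - 2 - s) h0 (by omega) (by omega)
  obtain ⟨Ψ, hΨ⟩ := exists_fm σ σ' Φ hi
  have hΨ' : ∀ y, Ψ.φ.symm (σ'.ρ y) = σ.ρ (Φ.φ.symm y) := by
    intro y
    rw [LinearEquiv.symm_apply_eq, hΨ, LinearEquiv.apply_symm_apply]
  have f1 : RatOp z z' (Ψ.φ : Z.R →ₗ[ℂ] Z'.R) := by
    intro w hw
    obtain ⟨x, hx, rfl⟩ := σ.rat_lift g hw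
    rw [LinearEquiv.coe_coe, hΨ]
    exact g' _ (h1 x hx)
  have f2 : RatOp z' z (Ψ.φ.symm : Z'.R →ₗ[ℂ] Z.R) := by
    intro w hw
    obtain ⟨y, hy, rfl⟩ := σ'.rat_lift g' hw
    rw [LinearEquiv.coe_coe, hΨ']
    exact g _ (h2 y hy)
  refine forms_of_section σ σ' g g' hL hL' (D := fun j => j < s + 2 ∧ (s + 2 - j) % 4 = 2) ?_
    (fun k hk => by omega) (HStr.main (s + 2) Z Z' z z' Ψ f1 f2).2.1 hK
  show s < s + 2 ∧ (s + 2 - s) % 4 = 2
  omega

/-! ### Sub-Hodge structures -/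

/-- `W` is a sub-Hodge structure of `H^s (X, ℚ)` (tensored with `ℂ`): it is spanned by rational
classes, and it is the sum of its intersections with the `H (p, q)`, `p + q = s`. -/
def IsSub {X : KRing n} (r : RatStr X) (s : ℕ) (W : Submodule ℂ X.R) : Prop :=
  W ≤ Submodule.span ℂ {x | x ∈ W ∧ r.IsRat x} ∧ W ≤ ⨆ p : ℤ, W ⊓ X.H (p, s - p)

/-- the smallest sub-Hodge structure of `H^s (X, ℚ)` which contains `A` -/
noncomputable def hull {X : KRing n} (r : RatStr X) (s : ℕ) (A : Submodule ℂ X.R) :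
    Submodule ℂ X.R :=
  sInf {W | IsSub r s W ∧ A ≤ W}

section retf

variable {X Y : KRing n} (r : RatStr X) (t : RatStr Y)

/-- the retraction of the complex to the rational classes given by a functional -/
noncomputable def retf (φ : ℂ →ₗ[ℚ] ℚ) (x : X.R) : X.R :=
  ∑ i, ((φ (r.e.repr x i) : ℚ) : ℂ) • r.e i

theorem retf_rat (φ : ℂ →ₗ[ℚ] ℚ) (x : X.R) : r.IsRat (retf r φ x) :=
  rat_sum r _ _ fun i _ => rat_smul r _ (rat_e r i)

theorem repr_retf (φ : ℂ →ₗ[ℚ] ℚ) (x : X.R) (i : r.ι) :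
    r.e.repr (retf r φ x) i = ((φ (r.e.repr x i) : ℚ) : ℂ) := by
  unfold retf
  rw [map_sum, Finset.sum_apply']
  simp [Finsupp.single_apply]

theorem fun_mul (φ : ℂ →ₗ[ℚ] ℚ) (q : ℚ) (z : ℂ) : φ ((q : ℂ) * z) = q * φ z := by
  have : ((q : ℂ) * z) = q • z := by rw [Rat.smul_def]
  rw [this, map_smul, smul_eq_mul]

theorem retf_add (φ : ℂ →ₗ[ℚ] ℚ) (x y : X.R) : retf r φ (x + y) = retf r φ x + retf r φ y := by
  apply r.e.ext_elem
  intro i
  rw [map_add, Finsupp.add_apply, repr_retf, repr_retf, repr_retf, map_add, Finsupp.add_apply,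
    map_add]
  push_cast
  rfl

theorem retf_zero (φ : ℂ →ₗ[ℚ] ℚ) : retf r φ 0 = 0 := by
  have := retf_add r φ 0 0
  rw [add_zero] at this
  exact left_eq_add.1 this

theorem retf_smul (φ : ℂ →ₗ[ℚ] ℚ) (c : ℂ) {x : X.R} (hx : r.IsRat x) :
    retf r φ (c • x) = ((φ c : ℚ) : ℂ) • x := by
  apply r.e.ext_elem
  intro i
  obtain ⟨q, hq⟩ := hx i
  have e1 : r.e.repr (c • x) i = c * q := by
    rw [map_smul, Finsupp.smul_apply, hq, smul_eq_mul]
  have e2 : r.e.repr (((φ c : ℚ) : ℂ) • x) i = ((φ c : ℚ) : ℂ) * q := by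
    rw [map_smul, Finsupp.smul_apply, hq, smul_eq_mul]
  rw [repr_retf, e1, e2, mul_comm c, fun_mul]
  push_cast
  ring

theorem retf_op {a : X.R →ₗ[ℂ] Y.R} (ha : RatOp r t a) (φ : ℂ →ₗ[ℚ] ℚ) (x : X.R) :
    a (retf r φ x) = retf t φ (a x) := by
  have h1 : ∀ i, ∃ q : t.ι → ℚ, ∀ j, t.e.repr (a (r.e i)) j = q j := fun i => by
    choose q hq using ha _ (rat_e r i)
    exact ⟨q, hq⟩
  choose q hq using h1
  apply t.e.ext_elem
  intro j
  rw [repr_retf]
  have e1 : a x = ∑ i, (r.e.repr x i) • a (r.e i) := by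
    conv_lhs => rw [← r.e.sum_repr x]
    rw [map_sum]
    exact Finset.sum_congr rfl fun i _ => by rw [map_smul]
  rw [e1]
  unfold retf
  rw [map_sum, map_sum, map_sum, Finset.sum_apply', Finset.sum_apply', map_sum]
  push_cast
  refine Finset.sum_congr rfl fun i _ => ?_
  rw [map_smul, map_smul, map_smul, Finsupp.smul_apply, Finsupp.smul_apply, hq, smul_eq_mul,
    smul_eq_mul, mul_comm (r.e.repr x i), fun_mul]
  push_cast
  ring

theorem mem_span_retf (x : X.R) : x ∈ Submodule.span ℂ (Set.range fun φ => retf r φ x) := by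
  classical
  obtain ⟨κ, ⟨B⟩⟩ : ∃ κ : Type, Nonempty (Module.Basis κ ℚ ℂ) :=
    ⟨_, ⟨Module.Basis.ofVectorSpace ℚ ℂ⟩⟩
  set S : Finset κ := Finset.univ.biUnion fun i => (B.repr (r.e.repr x i)).support with hS
  have h1 : ∀ i, r.e.repr x i = ∑ j ∈ S, ((B.coord j (r.e.repr x i) : ℚ) : ℂ) * B j := by
    intro i
    conv_lhs => rw [← B.linearCombination_repr (r.e.repr x i)]
    rw [Finsupp.linearCombination_apply]
    rw [Finsupp.sum_of_support_subset (s := S) _ _ _ (by simp)]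
    · refine Finset.sum_congr rfl fun j _ => ?_
      rw [Rat.smul_def]
      rfl
    · intro j hj
      rw [hS, Finset.mem_biUnion]
      exact ⟨i, Finset.mem_univ i, hj⟩
  have h2 : x = ∑ j ∈ S, B j • retf r (B.coord j) x := by
    apply r.e.ext_elem
    intro i
    rw [map_sum, Finset.sum_apply']
    conv_lhs => rw [h1]
    refine Finset.sum_congr rfl fun j _ => ?_
    rw [map_smul, Finsupp.smul_apply, repr_retf, smul_eq_mul, mul_comm]
  rw [h2]
  refine Submodule.sum_mem _ fun j _ => Submodule.smul_mem _ _ ?_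
  rw [← h2]
  exact Submodule.subset_span ⟨_, rfl⟩

theorem retf_mem {W : Submodule ℂ X.R} (hW : W ≤ Submodule.span ℂ {x | x ∈ W ∧ r.IsRat x})
    (φ : ℂ →ₗ[ℚ] ℚ) {x : X.R} (hx : x ∈ W) : retf r φ x ∈ W := by
  have h1 := hW hx
  have h2 : ∀ x ∈ Submodule.span ℂ {x | x ∈ W ∧ r.IsRat x}, retf r φ x ∈ W := by
    intro x hx
    rw [Submodule.mem_span_iff_exists_finset_subset] at hx
    obtain ⟨f, T, hT, _, rfl⟩ := hx
    have h3 : ∀ T' : Finset X.R, T' ⊆ T → retf r φ (∑ a ∈ T', f a • a) ∈ W := by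
      intro T'
      classical
      induction T' using Finset.induction_on with
      | empty =>
        intro _
        rw [Finset.sum_empty, retf_zero]
        exact Submodule.zero_mem _
      | insert a T' ha ih =>
        intro h
        rw [Finset.sum_insert ha, retf_add]
        obtain ⟨h4, h5⟩ := hT (h (Finset.mem_insert_self _ _))
        rw [retf_smul r φ _ h5]
        exact Submodule.add_mem _ (Submodule.smul_mem _ _ h4)
          (ih fun b hb => h (Finset.mem_insert_of_mem hb))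
    exact h3 T (Finset.Subset.refl _)
  exact h2 x h1

end retf

section sub

variable {X Y : KRing n} {r : RatStr X} {t : RatStr Y} {s : ℕ}

theorem pr_of {p q a b : ℤ} {x : X.R} (hx : x ∈ X.H (a, b)) :
    pr X p q x = if (a, b) = (p, q) then x else 0 := by
  unfold pr
  rw [diag_of X _ hx]
  split_ifs
  · rw [one_smul]
  · rw [zero_smul]

theorem IsSub.pr_mem' {W : Submodule ℂ X.R} (hW : IsSub r s W) (p q : ℤ) {x : X.R} (hx : x ∈ W) :
    pr X p q x ∈ W := by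
  have h1 := hW.2 hx
  refine Submodule.iSup_induction (p := fun p : ℤ => W ⊓ X.H (p, s - p))
    (motive := fun x => pr X p q x ∈ W) h1 ?_ ?_ ?_
  · rintro a y ⟨hy1, hy2⟩
    rw [pr_of hy2]
    split_ifs
    · exact hy1
    · exact Submodule.zero_mem _
  · rw [map_zero]; exact Submodule.zero_mem _
  · intro x y hx hy
    rw [map_add]; exact Submodule.add_mem _ hx hy

theorem isSub_bot : IsSub r s (⊥ : Submodule ℂ X.R) := ⟨bot_le, bot_le⟩

theorem dg_iff {x : X.R} : x ∈ (⨆ p : ℤ, X.H (p, s - p)) ↔ dg X s x = x := by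
  constructor
  · intro hx
    rw [dg_of_mem hx, if_pos rfl]
  · intro hx
    have h1 : ∀ y : X.R, dg X s y ∈ ⨆ p : ℤ, X.H (p, s - p) := by
      intro y
      refine X.ind (P := fun y => dg X s y ∈ ⨆ p : ℤ, X.H (p, s - p)) ?_ ?_ ?_ y
      · rw [map_zero]; exact Submodule.zero_mem _
      · intro x y hx hy
        rw [map_add]; exact Submodule.add_mem _ hx hy
      · intro p q y hy
        rw [dg_of X hy]
        split_ifs with h
        · have h2 := le_iSup (fun p : ℤ => X.H (p, s - p)) p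
          apply h2
          have e : (s : ℤ) - p = q := by omega
          show y ∈ X.H (p, s - p)
          rw [e]
          exact hy
        · exact Submodule.zero_mem _
    rw [← hx]
    exact h1 x

theorem comap_sub {f : X.R →ₗ[ℂ] Y.R} (hf : RatOp r t f)
    (hf' : ∀ (p q : ℤ) (x : X.R), p + q = s → x ∈ X.H (p, q) → f x ∈ Y.H (p, q))
    {W' : Submodule ℂ Y.R} (hW' : IsSub t s W') :
    IsSub r s (W'.comap f ⊓ ⨆ p : ℤ, X.H (p, s - p)) := by
  classical
  constructor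
  · rintro x ⟨hx1, hx2⟩
    have h1 := mem_span_retf r x
    refine Submodule.span_mono ?_ h1
    rintro _ ⟨φ, rfl⟩
    refine ⟨⟨?_, ?_⟩, retf_rat r φ x⟩
    · show f (retf r φ x) ∈ W'
      rw [retf_op r t hf]
      exact retf_mem t hW'.1 φ hx1
    · have h3 : dg X s (retf r φ x) = retf r φ x := by
        rw [retf_op r r (ratOp_dg r s), dg_iff.1 hx2]
      exact dg_iff.2 h3
  · rintro x ⟨hx1, hx2⟩
    have h1 : ∀ y ∈ ⨆ p : ℤ, X.H (p, s - p), ∀ p : ℤ,
        f (pr X p (s - p) y) = pr Y p (s - p) (f y) := by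
      intro y hy p
      refine Submodule.iSup_induction (p := fun p : ℤ => X.H (p, s - p))
        (motive := fun y => f (pr X p (s - p) y) = pr Y p (s - p) (f y)) hy ?_ ?_ ?_
      · intro a y hy
        rw [pr_of hy, pr_of (hf' a (s - a) y (by ring) hy)]
        split_ifs
        · rfl
        · rw [map_zero]
      · simp
      · intro x y hx hy
        simp only [map_add, hx, hy]
    have h2 : ∀ y ∈ ⨆ p : ℤ, X.H (p, s - p), ∀ V : Submodule ℂ X.R,
        (∀ p : ℤ, pr X p (s - p) y ∈ V) → y ∈ V := by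
      intro y hy V hV
      rw [Submodule.mem_iSup_iff_exists_finsupp] at hy
      obtain ⟨g, hg, rfl⟩ := hy
      have h3 : ∀ p, pr X p (s - p) (g.sum fun _ x => x) = g p := by
        intro p
        rw [Finsupp.sum, map_sum]
        rw [Finset.sum_eq_single p]
        · rw [pr_of (hg p), if_pos rfl]
        · intro a _ ha
          rw [pr_of (hg a), if_neg]
          intro h
          exact ha (congrArg Prod.fst h)
        · intro h
          rw [Finsupp.notMem_support_iff.1 h, map_zero]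
      refine Submodule.sum_mem _ fun p _ => ?_
      rw [← h3 p]
      exact hV p
    refine h2 x hx2 _ fun p => ?_
    have h4 := le_iSup (fun p : ℤ => (W'.comap f ⊓ ⨆ p : ℤ, X.H (p, s - p)) ⊓ X.H (p, s - p)) p
    apply h4
    refine ⟨⟨?_, ?_⟩, pr_mem X p _ x⟩
    · show f (pr X p (s - p) x) ∈ W'
      rw [h1 x hx2]
      exact hW'.pr_mem' p _ hx1
    · exact (le_iSup (fun p : ℤ => X.H (p, s - p)) p) (pr_mem X p _ x)

theorem IsoOn.hull {A : Submodule ℂ X.R} {B : Submodule ℂ Y.R}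
    (hA : A ≤ ⨆ p : ℤ, X.H (p, s - p)) (hB : B ≤ ⨆ p : ℤ, Y.H (p, s - p))
    (h : IsoOn r t s A B) : IsoOn r t s (hull r s A) (hull t s B) := by
  obtain ⟨u, v, u1, v1, u2, v2, hu, hv⟩ := h
  have key : ∀ (X Y : KRing n) (r : RatStr X) (t : RatStr Y) (A : Submodule ℂ X.R)
      (B : Submodule ℂ Y.R) (_ : A ≤ ⨆ p : ℤ, X.H (p, s - p)) (u : X.R →ₗ[ℂ] Y.R)
      (v : Y.R →ₗ[ℂ] X.R) (_ : RatOp r t u) (_ : RatOp t r v)
      (_ : ∀ (p q : ℤ) (x : X.R), p + q = s → x ∈ X.H (p, q) → u x ∈ Y.H (p, q))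
      (_ : ∀ (p q : ℤ) (y : Y.R), p + q = s → y ∈ Y.H (p, q) → v y ∈ X.H (p, q))
      (_ : ∀ x ∈ A, u x ∈ B ∧ v (u x) = x),
      ∀ x ∈ OH.hull r s A, u x ∈ OH.hull t s B ∧ v (u x) = x := by
    intro X Y r t A B hA u v u1 v1 u2 v2 hu x hx
    unfold OH.hull at hx
    rw [Submodule.mem_sInf] at hx
    constructor
    · unfold OH.hull
      rw [Submodule.mem_sInf]
      rintro W' ⟨hW', hB'⟩
      have h1 := hx (W'.comap u ⊓ ⨆ p : ℤ, X.H (p, s - p)) ⟨comap_sub u1 u2 hW', fun a ha =>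
        ⟨hB' (hu a ha).1, hA ha⟩⟩
      exact h1.1
    · have r1 : RatOp r r (v ∘ₗ u - LinearMap.id) := by
        intro y hy
        have := rat_add r (v1 _ (u1 _ hy)) (rat_smul r (-1) hy)
        rw [LinearMap.sub_apply, sub_eq_add_neg]
        simpa using this
      have r2 : ∀ (p q : ℤ) (x : X.R), p + q = s → x ∈ X.H (p, q) →
          (v ∘ₗ u - LinearMap.id : X.R →ₗ[ℂ] X.R) x ∈ X.H (p, q) := fun p q x hpq hx =>
        Submodule.sub_mem _ (v2 p q _ hpq (u2 p q x hpq hx)) hx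
      have h1 := hx ((⊥ : Submodule ℂ X.R).comap (v ∘ₗ u - LinearMap.id : X.R →ₗ[ℂ] X.R) ⊓
        ⨆ p : ℤ, X.H (p, s - p)) ⟨comap_sub r1 r2 (isSub_bot (r := r)), fun a ha => ⟨?_, hA ha⟩⟩
      · have h2 := h1.1
        rw [SetLike.mem_coe, Submodule.mem_comap, Submodule.mem_bot] at h2
        exact sub_eq_zero.1 h2
      · rw [SetLike.mem_coe, Submodule.mem_comap, Submodule.mem_bot]
        exact sub_eq_zero.2 (hu a ha).2
  exact ⟨u, v, u1, v1, u2, v2, key X Y r t A B hA u v u1 v1 u2 v2 hu,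
    key Y X t r B A hB v u v1 u1 v2 u2 hv⟩

theorem form_le (X : KRing n) (s : ℕ) : X.H (s, 0) ≤ ⨆ p : ℤ, X.H (p, s - p) := by
  have h := le_iSup (fun p : ℤ => X.H (p, s - p)) (s : ℤ)
  simp only [sub_self] at h
  exact h

end sub

end Pool.Agent.E8helper34.OH
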