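import Pool.Agent.R941.OH.HStr
import Pool.Agent.R929.DH.Iso

/-!
# A Fourier-Mukai isometry commutes with the multiplication by the first Chern class

The Mukai pairing satisfies `⟨x, y⟩ = (-1) ^ n ⟨y, exp (-c) x⟩` (the Serre functor).  So an isometry
commutes with `exp (-c)`, and therefore with `c`.
-/

set_option autoImplicit false

open scoped ComplexConjugate
open Module Polynomial Pool.Agent.W539.DI Pool.Agent.R929.DH Pool.Agent.R941.OH

namespace Pool.Agent.E8helper34.OH

variable {n : ℕ}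

/-- the truncated exponential series of `X / 2` -/
noncomputable def eP (n : ℕ) : ℂ[X] :=
  ∑ m ∈ Finset.range (n + 1), C ((1 : ℂ) / (2 ^ m * (m.factorial : ℂ))) * X ^ m

theorem aeval_eP (Z : KRing n) : aeval Z.c (eP n) = Z.expc := by
  unfold eP KRing.expc
  rw [map_sum]
  refine Finset.sum_congr rfl fun m _ => ?_
  rw [map_mul, map_pow, aeval_X, aeval_C, Algebra.smul_def]

theorem eP_zero : (eP n).coeff 0 = 1 := by
  unfold eP
  rw [finset_sum_coeff, Finset.sum_range_succ']
  simp [coeff_X_pow]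

theorem eP_one (hn : 1 ≤ n) : (eP n).coeff 1 = 1 / 2 := by
  unfold eP
  rw [finset_sum_coeff]
  simp only [coeff_C_mul, coeff_X_pow]
  rw [Finset.sum_eq_single 1]
  · simp
  · intro b _ hb
    simp [Ne.symm hb]
  · intro h
    simp at h
    omega

theorem dual_mul (Z : KRing n) (x y : Z.R) : Z.dual (x * y) = Z.dual x * Z.dual y := by
  refine Z.ind (P := fun x => Z.dual (x * y) = Z.dual x * Z.dual y) ?_ ?_ ?_ x
  · simp
  · intro x z hx hz
    rw [add_mul, map_add, hx, hz, map_add, add_mul]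
  · intro p q x hx
    refine Z.ind (P := fun y => Z.dual (x * y) = Z.dual x * Z.dual y) ?_ ?_ ?_ y
    · simp
    · intro x z hx hz
      rw [mul_add, map_add, hx, hz, map_add, mul_add]
    · intro p' q' y hy
      rw [Z.dual_of (Z.mul_mem hx hy), Z.dual_of hx, Z.dual_of hy, smul_mul_smul_comm,
        ← zpow_add₀ Complex.I_ne_zero]
      congr 2
      ring

theorem dual_c (Z : KRing n) : Z.dual Z.c = -Z.c := by
  rw [Z.dual_of Z.c_mem]
  norm_num

theorem dual_one (Z : KRing n) : Z.dual 1 = 1 := by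
  rw [Z.dual_of Z.one_mem]
  simp

theorem dual_pow (Z : KRing n) (k : ℕ) : Z.dual (Z.c ^ k) = (-Z.c) ^ k := by
  induction k with
  | zero => simp [dual_one]
  | succ k ih => rw [pow_succ, pow_succ, dual_mul, ih, dual_c]

theorem dual_aeval (Z : KRing n) (p : ℂ[X]) : Z.dual (aeval Z.c p) = aeval Z.c (p.comp (-X)) := by
  rw [aeval_comp, map_neg, aeval_X]
  induction p using Polynomial.induction_on' with
  | add p q hp hq => rw [map_add, map_add, hp, hq, map_add]
  | monomial k a => rw [aeval_monomial, aeval_monomial, ← Algebra.smul_def, ← Algebra.smul_def,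
      map_smul, dual_pow]

theorem tr_dual (Z : KRing n) (x : Z.R) : Z.tr (Z.dual x) = (-1) ^ n * Z.tr x := by
  refine Z.ind (P := fun x => Z.tr (Z.dual x) = (-1) ^ n * Z.tr x) ?_ ?_ ?_ x
  · simp
  · intro x y hx hy
    rw [map_add, map_add, hx, hy, map_add, mul_add]
  · intro p q x hx
    by_cases h : p = n ∧ q = n
    · rw [Z.dual_of hx, h.1, h.2, map_smul, smul_eq_mul]
      congr 1
      have e : ((n : ℤ) + n) = 2 * n := by ring
      rw [e, zpow_mul]
      norm_cast
      simp
    · rw [Z.dual_of hx, map_smul, Z.tr_van p q x hx h]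
      simp

/-- elements of degree zero modulo the even part commute with everything -/
theorem aeval_central (Z : KRing n) (p : ℂ[X]) (x : Z.R) : aeval Z.c p * x = x * aeval Z.c p := by
  induction p using Polynomial.induction_on' with
  | add p q hp hq => rw [map_add, add_mul, hp, hq, mul_add]
  | monomial k a => rw [aeval_monomial, ← Algebra.smul_def, smul_mul_assoc, mul_smul_comm,
      pow_central Z.c_mem]

theorem exists_inv (n : ℕ) : ∃ g b : ℂ[X], g * eP n + b * X ^ (n + 1) = 1 ∧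
    ∀ Z : KRing n, aeval Z.c g * Z.expc = 1 := by
  have h1 : IsCoprime (eP n) (X ^ (n + 1)) := by
    refine IsCoprime.pow_right ?_
    obtain ⟨w, hw⟩ : (X : ℂ[X]) ∣ eP n - 1 := by
      rw [X_dvd_iff, coeff_sub, eP_zero, coeff_one_zero, sub_self]
    refine ⟨1, -w, ?_⟩
    have : eP n = 1 + X * w := by rw [← hw]; ring
    rw [this]
    ring
  obtain ⟨a, b, hab⟩ := h1
  refine ⟨a, b, hab, fun Z => ?_⟩
  have := congrArg (aeval Z.c) hab
  rw [map_add, map_mul, map_mul, map_pow, aeval_X, c_pow, mul_zero, add_zero, map_one,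
    aeval_eP] at this
  exact this

theorem tr_odd (Z : KRing n) (f : ℂ[X]) {a b : ℤ} (h : Odd (a + b)) {w : Z.R}
    (hw : w ∈ Z.H (a, b)) : Z.tr (aeval Z.c f * w) = 0 := by
  induction f using Polynomial.induction_on' with
  | add p q hp hq => rw [map_add, add_mul, map_add, hp, hq, add_zero]
  | monomial k s =>
    rw [aeval_monomial, ← Algebra.smul_def, smul_mul_assoc, map_smul,
      Z.tr_van _ _ _ (Z.pow_mul_mem Z.c_mem k hw), smul_zero]
    rintro ⟨h1, h2⟩
    obtain ⟨l, hl⟩ := h
    omega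

theorem mukai_symm (Z : KRing n) {g : ℂ[X]} (hg : aeval Z.c g * Z.expc = 1) (x y : Z.R) :
    Z.mukai x y = (-1) ^ n * Z.mukai y (aeval Z.c (g * (eP n).comp (-X)) * x) := by
  refine Z.ind (P := fun x => Z.mukai x y =
    (-1) ^ n * Z.mukai y (aeval Z.c (g * (eP n).comp (-X)) * x)) ?_ ?_ ?_ x
  · simp [KRing.mukai]
  · intro x z hx hz
    rw [KRing.mukai_add_left, hx, hz, mul_add, KRing.mukai_add_right, mul_add]
  intro p q x hx
  refine Z.ind (P := fun y => Z.mukai x y =
    (-1) ^ n * Z.mukai y (aeval Z.c (g * (eP n).comp (-X)) * x)) ?_ ?_ ?_ y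
  · simp [KRing.mukai]
  · intro y z hy hz
    rw [KRing.mukai_add_right, hy, hz, KRing.mukai_add_left, mul_add]
  intro p' q' y hy
  have e1 : Z.expc * (Z.dual y * (aeval Z.c (g * (eP n).comp (-X)) * x)) =
      Z.dual Z.expc * (Z.dual y * x) := by
    rw [← aeval_eP, dual_aeval, aeval_eP, map_mul, ← mul_assoc (Z.dual y), ← mul_assoc (Z.dual y),
      ← aeval_central Z g (Z.dual y), mul_assoc (aeval Z.c g), ← aeval_central Z _ (Z.dual y),
      ← mul_assoc Z.expc, ← mul_assoc Z.expc, expc_central, hg, one_mul, mul_assoc]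
  have e2 : Z.mukai x y = (-1) ^ n * Z.tr (Z.dual (Z.expc * (Z.dual x * y))) := by
    rw [tr_dual, ← mul_assoc, ← pow_add, Even.neg_one_pow ⟨n, rfl⟩, one_mul]
    rfl
  rw [e2]
  unfold KRing.mukai
  rw [e1]
  congr 1
  have e3 : Z.dual (Z.dual x) = (-1 : ℂ) ^ (p + q) • x := by
    rw [Z.dual_of hx, map_smul, Z.dual_of hx, smul_smul, ← mul_zpow]
    simp
  have hdy : Z.dual y ∈ Z.H (p', q') := by
    rw [Z.dual_of hy]
    exact Submodule.smul_mem _ _ hy
  have e4 : Z.dual (Z.expc * (Z.dual x * y)) =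
      ((-1 : ℂ) ^ (p + q) * (-1 : ℂ) ^ ((p + q) * (p' + q'))) •
        (Z.dual Z.expc * (Z.dual y * x)) := by
    rw [dual_mul, dual_mul, e3, smul_mul_assoc, Z.comm _ _ _ _ _ _ hx hdy, smul_smul,
      mul_smul_comm]
  rw [e4, map_smul, smul_eq_mul]
  rcases Int.even_or_odd (p + q + (p' + q')) with h | h
  · have : (-1 : ℂ) ^ (p + q) * (-1 : ℂ) ^ ((p + q) * (p' + q')) = 1 := by
      rw [← zpow_add₀ (by norm_num)]
      apply Even.neg_one_zpow
      have e : p + q + (p + q) * (p' + q') = (p + q) * (1 + (p' + q')) := by ring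
      rw [e, Int.even_mul]
      rcases Int.even_or_odd (p + q) with h1 | h1
      · exact Or.inl h1
      · right
        rw [Int.even_iff] at *
        rw [Int.odd_iff] at h1
        omega
    rw [this, one_mul]
  · have : Z.tr (Z.dual Z.expc * (Z.dual y * x)) = 0 := by
      rw [← aeval_eP, dual_aeval]
      refine tr_odd Z _ (a := p' + p) (b := q' + q) ?_ (Z.mul_mem hdy hx)
      have e : p' + p + (q' + q) = p + q + (p' + q') := by ring
      rw [e]
      exact h
    rw [this, mul_zero]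

theorem dual_inj (Z : KRing n) (x : Z.R) : Z.dual (Z.dual (Z.dual (Z.dual x))) = x := by
  refine Z.ind (P := fun x => Z.dual (Z.dual (Z.dual (Z.dual x))) = x) ?_ ?_ ?_ x
  · simp
  · intro x y hx hy
    simp only [map_add, hx, hy]
  · intro p q x hx
    rw [Z.dual_of hx, map_smul, map_smul, map_smul, Z.dual_of hx, map_smul, map_smul, Z.dual_of hx,
      map_smul, Z.dual_of hx, smul_smul, smul_smul, smul_smul, ← mul_zpow, ← mul_zpow, ← mul_zpow]
    have : Complex.I * Complex.I * Complex.I * Complex.I = 1 := by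
      rw [Complex.I_mul_I, mul_assoc, Complex.I_mul_I]
      norm_num
    rw [this, one_zpow, one_smul]

theorem mukai_nd (Z : KRing n) {w : Z.R} (h : ∀ z, Z.mukai z w = 0) : w = 0 := by
  obtain ⟨u, hu⟩ := isUnit_expc Z
  have h1 : Z.expc * w = 0 := by
    refine nd_right Z fun x => ?_
    have h2 := h (Z.dual (Z.dual (Z.dual x)))
    unfold KRing.mukai at h2
    rw [dual_inj, ← mul_assoc, expc_central, mul_assoc] at h2
    exact h2
  rw [← hu] at h1
  have := congrArg (fun z => ((u⁻¹ : Z.Rˣ) : Z.R) * z) h1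
  simpa using this

variable {X' Y' : KRing n}

/-- The polynomials in `c` with which the transform commutes. -/
theorem inter_add {Φ : FM X' Y'} {f g : ℂ[X]}
    (hf : Intertwines Φ (aeval X'.c f) (aeval Y'.c f))
    (hg : Intertwines Φ (aeval X'.c g) (aeval Y'.c g)) :
    Intertwines Φ (aeval X'.c (f + g)) (aeval Y'.c (f + g)) := fun x => by
  rw [map_add, map_add, add_mul, add_mul, map_add, hf, hg]

theorem inter_smul {Φ : FM X' Y'} {f : ℂ[X]} (a : ℂ)
    (hf : Intertwines Φ (aeval X'.c f) (aeval Y'.c f)) :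
    Intertwines Φ (aeval X'.c (C a * f)) (aeval Y'.c (C a * f)) := fun x => by
  rw [← smul_eq_C_mul, map_smul, map_smul, smul_mul_assoc, smul_mul_assoc, map_smul, hf]

theorem inter_mul {Φ : FM X' Y'} {f g : ℂ[X]}
    (hf : Intertwines Φ (aeval X'.c f) (aeval Y'.c f))
    (hg : Intertwines Φ (aeval X'.c g) (aeval Y'.c g)) :
    Intertwines Φ (aeval X'.c (f * g)) (aeval Y'.c (f * g)) := fun x => by
  have e1 : aeval X'.c (f * g) = aeval X'.c f * aeval X'.c g := map_mul _ _ _
  have e2 : aeval Y'.c (f * g) = aeval Y'.c f * aeval Y'.c g := map_mul _ _ _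
  rw [e1, e2, mul_assoc, mul_assoc, hf, hg]

theorem inter_one {Φ : FM X' Y'} :
    Intertwines Φ (aeval X'.c (1 : ℂ[X])) (aeval Y'.c (1 : ℂ[X])) := fun x => by
  rw [map_one, map_one, one_mul, one_mul]

theorem inter_pow {Φ : FM X' Y'} {f : ℂ[X]}
    (hf : Intertwines Φ (aeval X'.c f) (aeval Y'.c f)) (k : ℕ) :
    Intertwines Φ (aeval X'.c (f ^ k)) (aeval Y'.c (f ^ k)) := by
  induction k with
  | zero => rw [pow_zero]; exact inter_one
  | succ k ih => rw [pow_succ]; exact inter_mul ih hf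

theorem inter_down {Φ : FM X' Y'} {v : ℂ[X]} (hv : v.coeff 0 ≠ 0)
    (hq : Intertwines Φ (aeval X'.c (X * v)) (aeval Y'.c (X * v))) (k : ℕ) :
    ∀ j, j + k = n + 1 → ∀ w : ℂ[X],
      Intertwines Φ (aeval X'.c (X ^ j * w)) (aeval Y'.c (X ^ j * w)) := by
  induction k with
  | zero =>
    intro j hj w x
    have hj' : j = n + 1 := by omega
    have e : ∀ Z : KRing n, aeval Z.c (X ^ j * w) = 0 := by
      intro Z
      have e1 : aeval Z.c (X ^ j * w) = aeval Z.c (X ^ j : ℂ[X]) * aeval Z.c w := map_mul _ _ _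
      have e2 : aeval Z.c (X ^ j : ℂ[X]) = Z.c ^ j := by rw [map_pow, aeval_X]
      rw [e1, e2, hj', c_pow, zero_mul]
    rw [e X', e Y', zero_mul, zero_mul, map_zero]
  | succ k ih =>
    intro j hj w
    have ih' := ih (j + 1) (by omega)
    obtain ⟨w1, hw1⟩ : (X : ℂ[X]) ∣ v ^ j - C (v.coeff 0 ^ j) := by
      rw [X_dvd_iff, coeff_sub, coeff_C_zero, coeff_zero_eq_eval_zero, eval_pow,
        ← coeff_zero_eq_eval_zero, sub_self]
    have h1 : Intertwines Φ (aeval X'.c (X ^ j : ℂ[X])) (aeval Y'.c (X ^ j : ℂ[X])) := by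
      have h2 := inter_add (inter_smul ((v.coeff 0 ^ j)⁻¹) (inter_pow hq j))
        (inter_smul (-(v.coeff 0 ^ j)⁻¹) (ih' w1))
      have e : (X ^ j : ℂ[X]) = C ((v.coeff 0 ^ j)⁻¹) * (X * v) ^ j +
          C (-(v.coeff 0 ^ j)⁻¹) * (X ^ (j + 1) * w1) := by
        have hv' : v ^ j = C (v.coeff 0 ^ j) + X * w1 := by rw [← hw1]; ring
        have hC : C ((v.coeff 0 ^ j)⁻¹) * C (v.coeff 0 ^ j) = (1 : ℂ[X]) := by
          rw [← C_mul, inv_mul_cancel₀ (pow_ne_zero _ hv), C_1]
        rw [mul_pow, hv', C_neg]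
        linear_combination (-(X ^ j : ℂ[X])) * hC
      rw [e]
      exact h2
    obtain ⟨w2, hw2⟩ : (X : ℂ[X]) ∣ w - C (w.coeff 0) := by
      rw [X_dvd_iff, coeff_sub, coeff_C_zero, sub_self]
    have e : X ^ j * w = C (w.coeff 0) * X ^ j + X ^ (j + 1) * w2 := by
      have : w = C (w.coeff 0) + X * w2 := by rw [← hw2]; ring
      conv_lhs => rw [this]
      ring
    rw [e]
    exact inter_add (inter_smul _ h1) (ih' w2)

/-- **A Fourier-Mukai isometry commutes with the multiplication by the first Chern class.** -/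
theorem intertwines_c (Φ : FM X' Y') : Intertwines Φ X'.c Y'.c := by
  rcases Nat.eq_zero_or_pos n with hn | hn
  · have h1 : ∀ Z : KRing n, Z.c = 0 := by
      intro Z
      refine zero_of Z (p := 1) (q := 1) ?_ Z.c_mem
      right; right; left
      rw [hn]
      norm_num
    intro x
    rw [h1 X', h1 Y', zero_mul, zero_mul, map_zero]
  obtain ⟨g, b, hgb, hg⟩ := exists_inv n
  set G : ℂ[X] := g * (eP n).comp (-X) with hG
  have key : Intertwines Φ (aeval X'.c G) (aeval Y'.c G) := by
    intro x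
    rw [← sub_eq_zero]
    refine mukai_nd Y' fun z => ?_
    obtain ⟨y, rfl⟩ := Φ.φ.surjective z
    have h1 := mukai_symm X' (hg X') x y
    have h2 := mukai_symm Y' (hg Y') (Φ.φ x) (Φ.φ y)
    rw [Φ.isom, h1, ← hG] at h2
    have h3 : X'.mukai y (aeval X'.c G * x) = Y'.mukai (Φ.φ y) (aeval Y'.c G * Φ.φ x) :=
      mul_left_cancel₀ (pow_ne_zero _ (by norm_num)) h2
    rw [← Φ.isom] at h3
    have h4 : Y'.mukai (Φ.φ y) (Φ.φ (aeval X'.c G * x) + (-1 : ℂ) • (aeval Y'.c G * Φ.φ x)) = 0 := by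
      rw [KRing.mukai_add_right, KRing.mukai_smul_right, h3]
      ring
    rw [sub_eq_add_neg, ← neg_one_smul ℂ]
    exact h4
  have c0 : g.coeff 0 = 1 := by
    have := congrArg (fun f : ℂ[X] => f.coeff 0) hgb
    simp only [coeff_add, mul_coeff_zero, eP_zero, coeff_one_zero, coeff_X_pow] at this
    simpa using this
  have c1 : g.coeff 1 = -(1 / 2) := by
    have := congrArg (fun f : ℂ[X] => f.coeff 1) hgb
    simp only [coeff_add, mul_coeff_one, eP_zero, eP_one hn, c0, coeff_X_pow, coeff_one] at this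
    rw [if_neg (by omega), if_neg (by omega), if_neg (by norm_num)] at this
    linear_combination this
  have d0 : ((eP n).comp (-X)).coeff 0 = 1 := by
    rw [coeff_zero_eq_eval_zero, eval_comp, eval_neg, eval_X, neg_zero, ← coeff_zero_eq_eval_zero,
      eP_zero]
  have d1 : ((eP n).comp (-X)).coeff 1 = -(1 / 2) := by
    have h1 := coeff_zero_eq_eval_zero (derivative ((eP n).comp (-X)))
    rw [coeff_derivative, derivative_comp, derivative_neg, derivative_X, eval_mul, eval_comp,
      eval_neg, eval_neg, eval_one, eval_X, neg_zero, ← coeff_zero_eq_eval_zero, coeff_derivative,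
      zero_add, eP_one hn] at h1
    simpa using h1
  have G0 : G.coeff 0 = 1 := by rw [hG, mul_coeff_zero, c0, d0, one_mul]
  have G1 : G.coeff 1 = -1 := by
    rw [hG, mul_coeff_one, c0, d0, c1, d1]
    norm_num
  obtain ⟨v, hv⟩ : (X : ℂ[X]) ∣ G + C (-1) * 1 := by
    rw [X_dvd_iff, coeff_add, G0]
    simp
  have hv0 : v.coeff 0 ≠ 0 := by
    have := congrArg (fun f : ℂ[X] => f.coeff 1) hv
    simp only [coeff_add, G1, coeff_X_mul] at this
    rw [← this]
    simp [coeff_one]
  have hq : Intertwines Φ (aeval X'.c (X * v)) (aeval Y'.c (X * v)) := by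
    rw [← hv]
    exact inter_add key (inter_smul (-1) inter_one)
  have h1 := inter_down hv0 hq n 1 (by omega) 1
  rw [pow_one, mul_one, aeval_X, aeval_X] at h1
  exact h1

end Pool.Agent.E8helper34.OH
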