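import Pool.Agent.E8helper34.OH.Sect

/-!
# Lifting morphisms of Hodge structures from the sections
-/

set_option autoImplicit false

open scoped ComplexConjugate
open Module Pool.Agent.W539.DI Pool.Agent.R929.DH Pool.Agent.R941.OH

namespace Pool.Agent.E8helper34.OH

/-- A semisimple ring is von Neumann regular. -/
theorem exists_reg {E : Type} [Ring E] [IsSemisimpleRing E] (f : E) : ∃ g : E, f * g * f = f := by
  obtain ⟨e, he, hI⟩ := IsSemisimpleRing.ideal_eq_span_idempotent (Ideal.span {f})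
  have h1 : e ∈ Ideal.span {f} := by
    rw [hI]
    exact Ideal.mem_span_singleton_self e
  obtain ⟨g, hg⟩ := Ideal.mem_span_singleton'.1 h1
  have h2 : f ∈ Ideal.span {e} := by
    have h := Ideal.mem_span_singleton_self f
    rw [hI] at h
    exact h
  obtain ⟨h, hh⟩ := Ideal.mem_span_singleton'.1 h2
  refine ⟨g, ?_⟩
  rw [mul_assoc, hg]
  conv_lhs => rw [← hh]
  rw [mul_assoc, he.eq, hh]

section rat

variable {n m : ℕ} {X : KRing n} {Z : KRing m} {r : RatStr X} {z : RatStr Z}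

theorem ret_op' {a : X.R →ₗ[ℂ] Z.R} (ha : ∀ x, r.IsRat x → z.IsRat (a x)) (x : X.R) :
    a (ret r x) = ret z (a x) := by
  have h1 : ∀ i, ∃ q : z.ι → ℚ, ∀ j, z.e.repr (a (r.e i)) j = q j := fun i => by
    choose q hq using ha _ (rat_e r i)
    exact ⟨q, hq⟩
  choose q hq using h1
  apply z.e.ext_elem
  intro j
  rw [repr_ret]
  have e1 : a x = ∑ i, (r.e.repr x i) • a (r.e i) := by
    conv_lhs => rw [← r.e.sum_repr x]
    rw [map_sum]
    exact Finset.sum_congr rfl fun i _ => by rw [map_smul]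
  rw [e1]
  unfold ret
  rw [map_sum, map_sum, map_sum, Finset.sum_apply', Finset.sum_apply', map_sum]
  push_cast
  refine Finset.sum_congr rfl fun i _ => ?_
  rw [map_smul, map_smul, map_smul, Finsupp.smul_apply, Finsupp.smul_apply, hq, smul_eq_mul,
    smul_eq_mul, mul_comm (r.e.repr x i), retr_mul]
  push_cast
  ring

variable {k : ℕ} {L : X.R} {a : ℂ}

theorem Sect.rat_lift (s : Sect X L Z k a) (hs : ∀ x, r.IsRat x → z.IsRat (s.ρ x)) {w : Z.R}
    (hw : z.IsRat w) : ∃ x, r.IsRat x ∧ s.ρ x = w := by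
  obtain ⟨x, rfl⟩ := s.surj w
  refine ⟨ret r x, ret_rat r x, ?_⟩
  have h := ret_op' (a := s.ρ.toLinearMap) hs x
  rw [AlgHom.toLinearMap_apply, AlgHom.toLinearMap_apply, rat_ret z hw] at h
  exact h

/-- a lift of the section in the degrees `D` -/
theorem Sect.exists_lift_op (s : Sect X L Z k a) (hs : ∀ x, r.IsRat x → z.IsRat (s.ρ x))
    (hL : r.IsRat L) (D : ℕ → Prop) :
    ∃ ℓ : Z.R →ₗ[ℂ] X.R, (∀ w, z.IsRat w → r.IsRat (ℓ w)) ∧
      (∀ (p q : ℤ) (w : Z.R), w ∈ typ Z p q → ℓ w ∈ typ X p q) ∧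
      (∀ w, proj X D (ℓ w) = ℓ w) ∧ (∀ x, proj X D x = x → s.ρ (ℓ (s.ρ x)) = s.ρ x) := by
  classical
  obtain ⟨A, hA⟩ := exists_actX r
  have _ := A.semisimple
  obtain ⟨M, hM⟩ := exists_EHS r (ratOp_mu r hL) (typeOp_mu s.L_mem)
  set P := A.L.pD D with hP
  have hPρ : rhoX r P = proj X D := by rw [← hA, hP, A.rho_pD]
  have hMk : ∀ (j : ℕ) (x : X.R), rhoX r (M ^ j) x = L ^ j * x := by
    intro j x
    rw [map_pow, hM, mu_pow]
  obtain ⟨g, hg⟩ := exists_reg (M ^ k * P)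
  obtain ⟨σ, hσ⟩ := LinearMap.exists_rightInverse_of_surjective s.ρ.toLinearMap
    (LinearMap.range_eq_top.2 s.surj)
  have h1 : ∀ x, s.ρ (σ (s.ρ x)) = s.ρ x := fun x =>
    congrArg (fun g : Z.R →ₗ[ℂ] Z.R => g (s.ρ x)) hσ
  have h2 : ∀ x, L ^ k * σ (s.ρ x) = L ^ k * x := by
    intro x
    rw [← sub_eq_zero, ← mul_sub, ← s.zero_iff, map_sub, h1, sub_self]
  set ℓ : Z.R →ₗ[ℂ] X.R := rhoX r (P * g * M ^ k) ∘ₗ σ with hℓ
  have h3 : ∀ x, ℓ (s.ρ x) = rhoX r (P * g * M ^ k) x := by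
    intro x
    rw [hℓ, LinearMap.comp_apply, map_mul, Module.End.mul_apply, Module.End.mul_apply, hMk, hMk, h2]
  have hPP : P * P = P := A.L.pD_self D
  refine ⟨ℓ, ?_, ?_, ?_, ?_⟩
  · intro w hw
    obtain ⟨x, hx, rfl⟩ := s.rat_lift hs hw
    rw [h3]
    exact rhoX_rat r _ x hx
  · intro p q w hw
    unfold typ at hw
    refine Submodule.iSup_induction (p := fun k : ℤ => Z.H (p + k, q + k))
      (motive := fun w => ℓ w ∈ typ X p q) hw ?_ ?_ ?_
    · intro j w hw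
      obtain ⟨x, hx, rfl⟩ := s.exists_lift hw
      rw [h3, ← typ_shift X p q j]
      exact rhoX_type r _ _ _ x hx
    · rw [map_zero]; exact Submodule.zero_mem _
    · intro x y hx hy
      rw [map_add]; exact Submodule.add_mem _ hx hy
  · intro w
    obtain ⟨x, rfl⟩ := s.surj w
    rw [h3, ← hPρ, ← Module.End.mul_apply, ← map_mul]
    congr 2
    rw [← mul_assoc, ← mul_assoc, hPP]
  · intro x hx
    rw [← sub_eq_zero, ← map_sub, s.zero_iff, h3, mul_sub, sub_eq_zero, ← hMk, ← hMk]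
    have hx' : rhoX r P x = x := by rw [hPρ, hx]
    have e1 : rhoX r (M ^ k) (rhoX r (P * g * M ^ k) x) =
        rhoX r (M ^ k * P * g * (M ^ k * P)) x := by
      conv_lhs => rw [← hx']
      simp only [← Module.End.mul_apply, ← map_mul, mul_assoc]
    rw [e1, hg, map_mul, Module.End.mul_apply, hx']

end rat

section transfer

variable {n m k : ℕ} {X Y : KRing n} {L : X.R} {L' : Y.R} {Z Z' : KRing m} {a : ℂ}
  {r : RatStr X} {t : RatStr Y} {z : RatStr Z} {z' : RatStr Z'}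

theorem SameHodge.stable {r : RatStr X} {t : RatStr Y} {D : ℕ → Prop} {u : X.R →ₗ[ℂ] Y.R}
    {v : Y.R →ₗ[ℂ] X.R} (h1 : v ∘ₗ u = proj X D) (h2 : u ∘ₗ v = proj Y D) {x : X.R}
    (hx : proj X D x = x) : proj Y D (u x) = u x ∧ v (u x) = x := by
  have h3 : v (u x) = x := by
    have := congrArg (fun g : X.R →ₗ[ℂ] X.R => g x) h1
    exact this.trans hx
  refine ⟨?_, h3⟩
  have := congrArg (fun g : Y.R →ₗ[ℂ] Y.R => g (u x)) h2
  simp only [LinearMap.comp_apply] at this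
  rw [h3] at this
  exact this.symm

theorem proj_proj (X : KRing n) (D : ℕ → Prop) (x : X.R) : proj X D (proj X D x) = proj X D x := by
  unfold proj
  rw [← Module.End.mul_apply, diag_mul]
  congr 2
  funext pq
  split_ifs
  · rw [one_mul]
  · rw [zero_mul]

theorem typeOp_proj (X : KRing n) (D : ℕ → Prop) : TypeOp (X := X) (proj X D) := by
  intro p q x hx
  unfold proj
  rw [diag_of X _ hx]
  exact Submodule.smul_mem _ _ (mem_typ X hx)

theorem ratOp_proj {X : KRing n} (r : RatStr X) (D : ℕ → Prop) : RatOp r r (proj X D) := by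
  classical
  obtain ⟨A, hA⟩ := exists_actX r
  rw [← A.rho_pD D, hA]
  exact rhoX_rat r _

/-- **Transfer.**  If the multiplication by `L ^ k` is injective in the degrees `D`, then an
isomorphism of these parts of the sections gives an isomorphism of these parts of the varieties. -/
theorem transfer (s : Sect X L Z k a) (s' : Sect Y L' Z' k a)
    (hs : ∀ x, r.IsRat x → z.IsRat (s.ρ x)) (hs' : ∀ y, t.IsRat y → z'.IsRat (s'.ρ y))
    (hL : r.IsRat L) (hL' : t.IsRat L') (D : ℕ → Prop)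
    (hX : ∀ x, proj X D x = x → L ^ k * x = 0 → x = 0)
    (hY : ∀ y, proj Y D y = y → L' ^ k * y = 0 → y = 0) (h : SameHodge z z' D) :
    SameHodge r t D := by
  obtain ⟨u, v, hu, hu', hv, hv', hvu, huv⟩ := h
  -- one direction
  have key : ∀ (X Y : KRing n) (L : X.R) (L' : Y.R) (Z Z' : KRing m) (r : RatStr X) (t : RatStr Y)
      (z : RatStr Z) (z' : RatStr Z') (s : Sect X L Z k a) (s' : Sect Y L' Z' k a)
      (_ : ∀ x, r.IsRat x → z.IsRat (s.ρ x)) (_ : ∀ y, t.IsRat y → z'.IsRat (s'.ρ y))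
      (_ : t.IsRat L') (_ : ∀ y, proj Y D y = y → L' ^ k * y = 0 → y = 0)
      (u : Z.R →ₗ[ℂ] Z'.R) (v : Z'.R →ₗ[ℂ] Z.R) (_ : RatOp z z' u) (_ : TypeOp u)
      (_ : v ∘ₗ u = proj Z D) (_ : u ∘ₗ v = proj Z' D),
      ∃ U : X.R →ₗ[ℂ] Y.R, RatOp r t U ∧ TypeOp U ∧ (∀ x, U x = U (proj X D x)) ∧
        (∀ x, proj Y D (U x) = U x) ∧ ∀ x, s'.ρ (U x) = u (s.ρ (proj X D x)) := by
    intro X Y L L' Z Z' r t z z' s s' hs hs' hL' hY u v hu hu' hvu huv
    obtain ⟨ℓ, l1, l2, l3, l4⟩ := s'.exists_lift_op (r := t) (z := z') hs' hL' D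
    refine ⟨ℓ ∘ₗ u ∘ₗ s.ρ.toLinearMap ∘ₗ proj X D, ?_, ?_, ?_, ?_, ?_⟩
    · intro x hx
      exact l1 _ (hu _ (hs _ (ratOp_proj r D x hx)))
    · intro p q x hx
      exact l2 p q _ (typeOp_mem hu' (s.typ' (typeOp_proj X D p q x hx)))
    · intro x
      show ℓ (u (s.ρ (proj X D x))) = ℓ (u (s.ρ (proj X D (proj X D x))))
      rw [proj_proj]
    · intro x
      exact l3 _
    · intro x
      show s'.ρ (ℓ (u (s.ρ (proj X D x)))) = _
      have h1 : proj Z D (s.ρ (proj X D x)) = s.ρ (proj X D x) := by rw [← s.proj', proj_proj]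
      obtain ⟨h2, h3⟩ := SameHodge.stable (r := z) (t := z') hvu huv h1
      obtain ⟨y, hy⟩ := s'.surj (u (s.ρ (proj X D x)))
      have h4 : s'.ρ (proj Y D y) = u (s.ρ (proj X D x)) := by rw [s'.proj', hy, h2]
      rw [← h4, l4 _ (proj_proj Y D y)]
  obtain ⟨U, U1, U2, U3, U4, U5⟩ := key X Y L L' Z Z' r t z z' s s' hs hs' hL' hY u v hu hu' hvu huv
  obtain ⟨V, V1, V2, V3, V4, V5⟩ := key Y X L' L Z' Z t r z' z s' s hs' hs hL hX v u hv hv' huv hvu
  have e1 : ∀ x, V (U x) = proj X D x := by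
    intro x
    have h1 : s.ρ (V (U x)) = s.ρ (proj X D x) := by
      rw [V5, U4, U5]
      have h2 : proj Z D (s.ρ (proj X D x)) = s.ρ (proj X D x) := by rw [← s.proj', proj_proj]
      exact (SameHodge.stable (r := z) (t := z') hvu huv h2).2
    rw [← sub_eq_zero]
    refine hX _ ?_ ?_
    · rw [map_sub, V4, proj_proj]
    · rw [← s.zero_iff, map_sub, h1, sub_self]
  have e2 : ∀ y, U (V y) = proj Y D y := by
    intro y
    have h1 : s'.ρ (U (V y)) = s'.ρ (proj Y D y) := by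
      rw [U5, V4, V5]
      have h2 : proj Z' D (s'.ρ (proj Y D y)) = s'.ρ (proj Y D y) := by rw [← s'.proj', proj_proj]
      exact (SameHodge.stable (r := z') (t := z) huv hvu h2).2
    rw [← sub_eq_zero]
    refine hY _ ?_ ?_
    · rw [map_sub, U4, proj_proj]
    · rw [← s'.zero_iff, map_sub, h1, sub_self]
  exact ⟨U, V, U1, U2, V1, V2, LinearMap.ext e1, LinearMap.ext e2⟩

end transfer

end Pool.Agent.E8helper34.OH
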