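import Pool.Agent.E8helper34.OH.ActZ

/-!
# The relations from the sections, for an algebra of correspondences
-/

set_option autoImplicit false

open scoped ComplexConjugate
open Module Pool.Agent.W539.DI Pool.Agent.R929.DH Pool.Agent.R941.OH

namespace Pool.Agent.E8helper34.OH

section inj

variable {E : Type} [Ring E] [Algebra ℚ E] [FiniteDimensional ℚ E] {n m k : ℕ} {X : KRing n}
  {L : X.R} {Z : KRing m} {a : ℂ} {A : Act E X} {s : Sect X L Z k a} {ℓ ε z : E}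

theorem cut_comm (hℓ : A.ρ ℓ = mu X L) (h : Cut ℓ ε z k) (s : Sect X L Z k a) (D : ℕ → Prop)
    [DecidablePred D] : ε * A.L.pD D * ε = ε * A.L.pD D := by
  apply A.inj
  ext x
  have h1 : s.ρ (A.ρ (A.L.pD D) (A.ρ ε x) - A.ρ (A.L.pD D) x) = 0 := by
    rw [map_sub, A.rho_pD, s.proj', s.proj', rho_cut hℓ h, sub_self]
  have h2 := cut_zero (s := s) hℓ h h1
  rw [map_sub, sub_eq_zero] at h2
  rw [map_mul, map_mul, Module.End.mul_apply, Module.End.mul_apply, Module.End.mul_apply, h2]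

theorem cut_comm' (hℓ : A.ρ ℓ = mu X L) (h : Cut ℓ ε z k) (s : Sect X L Z k a) (D : ℕ → Prop)
    [DecidablePred D] : ε * A.L.pD D * ε * A.L.pD D = ε * A.L.pD D := by
  rw [cut_comm hℓ h s, mul_assoc, A.L.pD_self]

/-- If the multiplication by `L ^ k` is injective in the degrees `D`, then the projector to these
degrees is equivalent to the corresponding projector of the section. -/
theorem tS_cut [IsSemisimpleRing E] (hℓ : A.ρ ℓ = mu X L) (h : Cut ℓ ε z k) (s : Sect X L Z k a)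
    (D : ℕ → Prop) [DecidablePred D] (hD : ∀ x, proj X D x = x → L ^ k * x = 0 → x = 0)
    (S : Submodule E E) : tS S (ε * A.L.pD D * ε) = tS S (A.L.pD D) := by
  set P := A.L.pD D with hP
  have hPP : P * P = P := A.L.pD_self D
  obtain ⟨y, hy⟩ := exists_reg (ℓ ^ k * P)
  have h1 : P * y * ℓ ^ k * P = P := by
    apply A.inj
    ext x
    rw [← sub_eq_zero, ← LinearMap.sub_apply, ← map_sub]
    refine hD _ ?_ ?_
    · rw [← A.rho_pD, ← hP, ← Module.End.mul_apply, ← map_mul]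
      congr 2
      rw [mul_sub, hPP]
      congr 1
      simp only [← mul_assoc, hPP]
    · rw [← rho_pow A hℓ, ← Module.End.mul_apply, ← map_mul]
      have e : ℓ ^ k * (P * y * ℓ ^ k * P - P) = 0 := by
        rw [mul_sub, sub_eq_zero]
        calc ℓ ^ k * (P * y * ℓ ^ k * P) = ℓ ^ k * P * y * (ℓ ^ k * P) := by
              simp only [mul_assoc]
          _ = ℓ ^ k * P := hy
      rw [e, map_zero]
      rfl
  have h2 : ε * P * ε * P = ε * P := cut_comm' hℓ h s D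
  have h3 : ε * P * ε = ε * P := cut_comm hℓ h s D
  -- `v = ε P`, `u = P y ℓ ^ k`
  have huv : P * y * ℓ ^ k * (ε * P) = P := by
    calc P * y * ℓ ^ k * (ε * P) = P * y * (ℓ ^ k * ε) * P := by simp only [mul_assoc]
      _ = P := by rw [h.mul, h1]
  set f1 := ε * P * (P * y * ℓ ^ k) with hf1
  have h4 : f1 * (ε * P) = ε * P := by
    rw [hf1, mul_assoc, huv, mul_assoc, hPP]
  have h5 : ε * P * f1 = f1 := by
    rw [hf1]
    calc ε * P * (ε * P * (P * y * ℓ ^ k)) = ε * P * ε * P * (P * y * ℓ ^ k) := by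
          simp only [mul_assoc]
      _ = _ := by rw [h2]
  calc tS S (ε * P * ε) = tS S (ε * P) := by rw [h3]
    _ = tS S (f1 * (ε * P)) := by rw [h4]
    _ = tS S (ε * P * f1) := tS_mul S _ _
    _ = tS S f1 := by rw [h5]
    _ = tS S (P * y * ℓ ^ k * (ε * P)) := by rw [hf1, tS_mul]
    _ = tS S P := by rw [huv]

end inj

section rel

variable {E : Type} [Ring E] [Algebra ℚ E] [FiniteDimensional ℚ E] [IsSemisimpleRing E]
  {n m k : ℕ} {X Y : KRing n} {L : X.R} {L' : Y.R} {Z Z' : KRing m} {a : ℂ}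

/-- **The relation of the sections.** -/
theorem rel_section (A : Act E X) (B : Act E Y) (Φ : FM X Y)
    (hΦ : ∀ e x, Φ.φ (A.ρ e x) = B.ρ e (Φ.φ x)) (s : Sect X L Z k a) (s' : Sect Y L' Z' k a)
    (hi : Intertwines Φ L L') {ℓ ε z : E} (hℓ : A.ρ ℓ = mu X L) (h : Cut ℓ ε z k)
    (hLb : X.bar L = L) (hLb' : Y.bar L' = L') (hω : s.ρ X.ω = Z.ω) (hω' : s'.ρ Y.ω = Z'.ω)
    (S : Submodule E E) :
    tS S (ε * A.L.pD (fun j => j < m ∧ (m - j) % 4 = 2) * ε) =
      tS S (ε * B.L.pD (fun j => j < m ∧ (m - j) % 4 = 2) * ε) := by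
  classical
  set D : ℕ → Prop := fun j => j < m ∧ (m - j) % 4 = 2 with hDdef
  have hℓ' : B.ρ ℓ = mu Y L' := by
    ext y
    obtain ⟨x, rfl⟩ := Φ.φ.surjective y
    rw [← hΦ, hℓ]
    exact hi x
  obtain ⟨Ψ, hΨ⟩ := exists_fm s s' Φ hi
  -- the action on the section of `Y`
  let θ' : EZ A s →+* Module.End ℂ Z'.R :=
    { toFun := fun w => (Ψ.φ : Z.R →ₗ[ℂ] Z'.R) ∘ₗ thetaZ A s w ∘ₗ (Ψ.φ.symm : Z'.R →ₗ[ℂ] Z.R)
      map_one' := by
        ext y
        simp
      map_mul' := fun a b => by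
        ext y
        simp
      map_zero' := by
        ext y
        simp
      map_add' := fun a b => by
        ext y
        simp }
  have hθ' : ∀ w y, θ' w y = Ψ.φ (thetaZ A s w (Ψ.φ.symm y)) := fun w y => rfl
  have hθinj : Function.Injective θ' := by
    intro u v huv
    apply thetaZ_inj A s
    ext x
    have h3 := congrArg (fun g : Module.End ℂ Z'.R => g (Ψ.φ x)) huv
    simp only [hθ', LinearEquiv.symm_apply_apply] at h3
    exact Ψ.φ.injective h3
  have hr' : ∀ f, (∃ w, θ' w = f) ↔ Ind B s' f := by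
    intro f
    constructor
    · rintro ⟨w, rfl⟩
      obtain ⟨e, he⟩ := (thetaZ_iff A s _).1 ⟨w, rfl⟩
      refine ⟨e, fun y => ?_⟩
      obtain ⟨x, rfl⟩ := Φ.φ.surjective y
      rw [hθ', ← hΨ, LinearEquiv.symm_apply_apply, he, hΨ, hΦ]
    · rintro ⟨e, he⟩
      obtain ⟨w, hw⟩ := (thetaZ_iff A s ((Ψ.φ.symm : Z'.R →ₗ[ℂ] Z.R) ∘ₗ f ∘ₗ
        (Ψ.φ : Z.R →ₗ[ℂ] Z'.R))).2 ⟨e, fun x => by
          show Ψ.φ.symm (f (Ψ.φ (s.ρ x))) = _
          rw [hΨ, he, ← hΦ, ← hΨ, LinearEquiv.symm_apply_apply]⟩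
      refine ⟨w, ?_⟩
      ext y
      rw [hθ', hw]
      simp
  obtain ⟨AZ, hAZ⟩ := exists_actZ A s (thetaZ A s) (thetaZ_inj A s) (thetaZ_iff A s) hℓ hLb hω
  obtain ⟨BZ, hBZ⟩ := exists_actZ B s' θ' hθinj hr' hℓ' hLb' hω'
  have _ := AZ.semisimple
  have hΨΨ : ∀ w x, Ψ.φ (AZ.ρ w x) = BZ.ρ w (Ψ.φ x) := by
    intro w x
    rw [hAZ, hBZ, hθ', LinearEquiv.symm_apply_apply]
  have hlow : ∀ (t : EZ A s →+ ℚ) (L₀ : Lef (EZ A s) m), t (L₀.pD D) = L₀.nN t m := by
    intro t L₀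
    unfold Lef.pD Lef.nN
    rw [map_sum]
    refine Finset.sum_congr ?_ fun _ _ => rfl
    ext j
    simp only [Finset.mem_filter, Finset.mem_range, hDdef]
    omega
  obtain ⟨a1, b1, hab, hba⟩ := idem_equiv (AZ.L.pD_self D) (BZ.L.pD_self D) (fun T => by
    rw [hlow, hlow]
    exact core1 AZ BZ Ψ hΨΨ T)
  obtain ⟨e1, p1, q1, r1⟩ := ind_normal hℓ h ((thetaZ_iff A s _).1 ⟨a1, rfl⟩)
  obtain ⟨e2, p2, q2, r2⟩ := ind_normal hℓ h ((thetaZ_iff A s _).1 ⟨b1, rfl⟩)
  have hE : ε * ε = ε := h.idem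
  -- the two products
  have k1 : e1 * e2 = ε * A.L.pD D * ε := by
    refine normal_unique (s := s) hℓ h (by rw [← mul_assoc, p1])
      (by rw [← mul_assoc, ← mul_assoc, hE]) fun x => ?_
    rw [map_mul, Module.End.mul_apply, ← r1, ← r2, ← Module.End.mul_apply, ← map_mul, hab, ← hAZ,
      AZ.rho_pD, map_mul, map_mul, Module.End.mul_apply, Module.End.mul_apply, rho_cut hℓ h,
      A.rho_pD, s.proj', rho_cut hℓ h]
  have k2 : e2 * e1 = ε * B.L.pD D * ε := by
    refine normal_unique (s := s) hℓ h (by rw [← mul_assoc, p2])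
      (by rw [← mul_assoc, ← mul_assoc, hE]) fun x => ?_
    have hB : ∀ x, s.ρ (A.ρ (B.L.pD D) x) = Ψ.φ.symm (proj Z' D (Ψ.φ (s.ρ x))) := by
      intro x
      rw [LinearEquiv.eq_symm_apply, hΨ, hΨ, hΦ, B.rho_pD, s'.proj']
    rw [map_mul, Module.End.mul_apply, ← r2, ← r1, ← Module.End.mul_apply, ← map_mul, hba,
      map_mul, map_mul, Module.End.mul_apply, Module.End.mul_apply, rho_cut hℓ h, hB,
      rho_cut hℓ h, LinearEquiv.eq_symm_apply, ← hAZ, hΨΨ, BZ.rho_pD]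
  rw [← k1, ← k2, tS_mul]

/-- the relation for the varieties -/
theorem rel_var (A : Act E X) (B : Act E Y) (Φ : FM X Y)
    (hΦ : ∀ e x, Φ.φ (A.ρ e x) = B.ρ e (Φ.φ x)) (s : Sect X L Z k a) (s' : Sect Y L' Z' k a)
    (hi : Intertwines Φ L L') {ℓ : E} (hℓ : A.ρ ℓ = mu X L)
    (hLb : X.bar L = L) (hLb' : Y.bar L' = L') (hω : s.ρ X.ω = Z.ω) (hω' : s'.ρ Y.ω = Z'.ω)
    (hX : SmallDefect X L) (hY : SmallDefect Y L') (S : Submodule E E) :
    tS S (A.L.pD (fun j => j < m ∧ (m - j) % 4 = 2)) =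
      tS S (B.L.pD (fun j => j < m ∧ (m - j) % 4 = 2)) := by
  obtain ⟨ε, z, h⟩ := exists_cut ℓ k
  have hℓ' : B.ρ ℓ = mu Y L' := by
    ext y
    obtain ⟨x, rfl⟩ := Φ.φ.surjective y
    rw [← hΦ, hℓ]
    exact hi x
  have h1 := rel_section A B Φ hΦ s s' hi hℓ h hLb hLb' hω hω' S
  rw [tS_cut hℓ h s _ (hX.inj s.L_mem s.dim _ ?_), tS_cut hℓ' h s' _ (hY.inj s'.L_mem s'.dim _ ?_)]
    at h1
  · exact h1
  · rintro j ⟨_, _⟩
    omega
  · rintro j ⟨_, _⟩
    omega

end rel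

/-- **Multiplicities in low degrees.** -/
theorem small_tS {E : Type} [Ring E] [Algebra ℚ E] [FiniteDimensional ℚ E] [IsSemisimpleRing E]
    {n : ℕ} {X Y : KRing n} {L : X.R} {L' : Y.R} (A : Act E X) (B : Act E Y) (Φ : FM X Y)
    (hΦ : ∀ e x, Φ.φ (A.ρ e x) = B.ρ e (Φ.φ x)) (hi : Intertwines Φ L L') {ℓ : E}
    (hℓ : A.ρ ℓ = mu X L) (hLb : X.bar L = L) (hLb' : Y.bar L' = L') (hX : SmallDefect X L)
    (hY : SmallDefect Y L')
    (hs : ∀ k m : ℕ, 1 ≤ k → 3 ≤ m → m + k = n → ∃ (Z Z' : KRing m) (a : ℂ) (s : Sect X L Z k a)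
      (s' : Sect Y L' Z' k a), s.ρ X.ω = Z.ω ∧ s'.ρ Y.ω = Z'.ω)
    (h0 : ∀ S : Submodule E E, tS S (A.L.p 0) = tS S (B.L.p 0)) (i : ℕ) (hin : i + 2 ≤ n)
    (S : Submodule E E) : tS S (A.L.p i) = tS S (B.L.p i) := by
  classical
  induction i using Nat.strong_induction_on with
  | _ i ih =>
    rcases Nat.eq_zero_or_pos i with hi0 | hi0
    · rw [hi0]; exact h0 S
    have key : ∑ j ∈ (Finset.range (2 * n + 1)).filter
        (fun j => j < i + 2 ∧ (i + 2 - j) % 4 = 2), tS S (A.L.p j) =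
        ∑ j ∈ (Finset.range (2 * n + 1)).filter
        (fun j => j < i + 2 ∧ (i + 2 - j) % 4 = 2), tS S (B.L.p j) := by
      rw [← t_pD, ← t_pD]
      by_cases hk : i + 2 = n
      · have h1 := core1 A B Φ hΦ S
        unfold Lef.nN at h1
        rw [t_pD, t_pD]
        have e : (Finset.range (2 * n + 1)).filter
            (fun j => j < i + 2 ∧ (i + 2 - j) % 4 = 2) =
            (Finset.range n).filter (fun j => (n - j) % 4 = 2) := by
          ext j
          simp only [Finset.mem_filter, Finset.mem_range]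
          omega
        rw [e]
        exact h1
      · obtain ⟨Z, Z', a, s, s', w, w'⟩ := hs (n - (i + 2)) (i + 2) (by omega) (by omega)
          (by omega)
        exact rel_var A B Φ hΦ s s' hi hℓ hLb hLb' w w' hX hY S
    refine sum_cancel key (i := i) ?_ fun j hj hne => ih j ?_ ?_
    · rw [Finset.mem_filter, Finset.mem_range]
      omega
    · rw [Finset.mem_filter, Finset.mem_range] at hj
      omega
    · rw [Finset.mem_filter, Finset.mem_range] at hj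
      omega

end Pool.Agent.E8helper34.OH
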