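import Pool.Agent.E8helper34.OH.Inter

/-!
# Restriction of a Fourier-Mukai isometry to complete intersections
-/

set_option autoImplicit false

open scoped ComplexConjugate
open Module Pool.Agent.W539.DI Pool.Agent.R929.DH Pool.Agent.R941.OH

namespace Pool.Agent.E8helper34.OH

/-- `Z` is the image of the restriction `ρ` of the cohomology of `X` to a smooth complete
intersection `S` of `k` general members of a base point free linear system with class `μ L`, where
`a = μ ^ k`.  By Deligne this image is the invariant part of the cohomology of `S` (for the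
monodromy of the family of these complete intersections), so that it satisfies Poincaré duality, the
hard Lefschetz theorem and the Hodge-Riemann relations (it is a `KRing` of dimension `m = n - k`,
also if `S` is not connected).  The class `c` of `Z` is the restriction of the first Chern class
of `X`. -/
structure Sect {n m : ℕ} (X : KRing n) (L : X.R) (Z : KRing m) (k : ℕ) (a : ℂ) where
  dim : m + k = n
  /-- the restriction -/
  ρ : X.R →ₐ[ℂ] Z.R
  surj : Function.Surjective ρ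
  mem : ∀ (p q : ℤ) (x : X.R), x ∈ X.H (p, q) → ρ x ∈ Z.H (p, q)
  real : ∀ x, ρ (X.bar x) = Z.bar (ρ x)
  c : ρ X.c = Z.c
  L_mem : L ∈ X.H (1, 1)
  a_ne : a ≠ 0
  /-- the class of the complete intersection is `a L ^ k` -/
  tr : ∀ x, Z.tr (ρ x) = a * X.tr (L ^ k * x)

namespace Sect

variable {n m k : ℕ} {X : KRing n} {L : X.R} {Z : KRing m} {a : ℂ} (s : Sect X L Z k a)

include s in
theorem zero_iff (x : X.R) : s.ρ x = 0 ↔ L ^ k * x = 0 := by
  constructor
  · intro h
    refine nd_left X fun y => ?_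
    have h1 := s.tr (x * y)
    rw [map_mul, h, zero_mul, map_zero, ← mul_assoc] at h1
    exact (mul_eq_zero.1 h1.symm).resolve_left s.a_ne
  · intro h
    refine nd_left Z fun z => ?_
    obtain ⟨y, rfl⟩ := s.surj z
    rw [← map_mul, s.tr, ← mul_assoc, h, zero_mul, map_zero, mul_zero]

theorem diag' (f : ℤ × ℤ → ℂ) (x : X.R) : s.ρ (diag X f x) = diag Z f (s.ρ x) := by
  refine X.ind (P := fun x => s.ρ (diag X f x) = diag Z f (s.ρ x)) ?_ ?_ ?_ x
  · simp
  · intro x y hx hy
    rw [map_add, map_add, hx, hy, map_add, map_add]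
  · intro p q x hx
    rw [diag_of X f hx, diag_of Z f (s.mem p q x hx), map_smul]

theorem dg' (j : ℕ) (x : X.R) : s.ρ (dg X j x) = dg Z j (s.ρ x) := s.diag' _ x

theorem proj' (D : ℕ → Prop) (x : X.R) : s.ρ (proj X D x) = proj Z D (s.ρ x) :=
  s.diag' _ x

theorem dual (x : X.R) : s.ρ (X.dual x) = Z.dual (s.ρ x) := by
  refine X.ind (P := fun x => s.ρ (X.dual x) = Z.dual (s.ρ x)) ?_ ?_ ?_ x
  · simp
  · intro x y hx hy
    rw [map_add, map_add, hx, hy, map_add, map_add]
  · intro p q x hx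
    rw [X.dual_of hx, Z.dual_of (s.mem p q x hx), map_smul]

theorem exists_lift {p q : ℤ} {z : Z.R} (hz : z ∈ Z.H (p, q)) : ∃ x ∈ X.H (p, q), s.ρ x = z := by
  obtain ⟨x, rfl⟩ := s.surj z
  refine ⟨pr X p q x, pr_mem X p q x, ?_⟩
  unfold pr
  rw [s.diag', diag_of Z _ hz]
  simp

theorem expc : s.ρ X.expc = Z.expc := by
  unfold KRing.expc
  rw [map_sum]
  symm
  have hd := s.dim
  refine Finset.sum_subset_zero_on_sdiff (s₁ := Finset.range (m + 1)) ?_ ?_ ?_
  · intro i hi
    rw [Finset.mem_range] at *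
    omega
  · intro i hi
    rw [Finset.mem_sdiff, Finset.mem_range, Finset.mem_range] at hi
    obtain ⟨j, rfl⟩ : ∃ j, i = (m + 1) + j := ⟨i - (m + 1), by omega⟩
    have h : Z.c ^ (m + 1 + j) = 0 := by rw [pow_add, c_pow, zero_mul]
    rw [map_smul, map_pow, s.c, h, smul_zero]
  · intro i _
    rw [map_smul, map_pow, s.c]

theorem mukai (x y : X.R) : Z.mukai (s.ρ x) (s.ρ y) = a * X.mukai x (L ^ k * y) := by
  unfold KRing.mukai
  rw [← s.dual, ← s.expc, ← map_mul, ← map_mul, s.tr]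
  congr 2
  rw [← mul_assoc, pow_central s.L_mem k X.expc, mul_assoc, ← mul_assoc (L ^ k),
    pow_central s.L_mem k (X.dual x), mul_assoc]

theorem typ' {p q : ℤ} {x : X.R} (hx : x ∈ typ X p q) : s.ρ x ∈ typ Z p q := by
  unfold typ at hx
  refine Submodule.iSup_induction (p := fun k : ℤ => X.H (p + k, q + k))
    (motive := fun x => s.ρ x ∈ typ Z p q) hx ?_ ?_ ?_
  · intro k x hx
    rw [← typ_shift Z p q k]
    exact mem_typ Z (s.mem _ _ x hx)
  · rw [map_zero]; exact Submodule.zero_mem _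
  · intro x y hx hy
    rw [map_add]; exact Submodule.add_mem _ hx hy

end Sect

/-- the induced map of the sections -/
theorem exists_map {n m k : ℕ} {X Y : KRing n} {L : X.R} {L' : Y.R} {Z Z' : KRing m} {a : ℂ}
    (s : Sect X L Z k a) (s' : Sect Y L' Z' k a) (f : X.R →ₗ[ℂ] Y.R)
    (hf : ∀ x, f (L * x) = L' * f x) :
    ∃ g : Z.R →ₗ[ℂ] Z'.R, ∀ x, g (s.ρ x) = s'.ρ (f x) := by
  obtain ⟨σ, hσ⟩ := LinearMap.exists_rightInverse_of_surjective s.ρ.toLinearMap
    (LinearMap.range_eq_top.2 s.surj)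
  have hpow : ∀ (j : ℕ) (x : X.R), f (L ^ j * x) = L' ^ j * f x := by
    intro j
    induction j with
    | zero => intro x; rw [pow_zero, pow_zero, one_mul, one_mul]
    | succ j ih => intro x; rw [pow_succ, mul_assoc, ih, hf, pow_succ, mul_assoc]
  refine ⟨s'.ρ.toLinearMap ∘ₗ f ∘ₗ σ, fun x => ?_⟩
  have h1 : s.ρ (σ (s.ρ x)) = s.ρ x := congrArg (fun g : Z.R →ₗ[ℂ] Z.R => g (s.ρ x)) hσ
  have h2 : L ^ k * (σ (s.ρ x) - x) = 0 := by
    rw [← s.zero_iff, map_sub, h1, sub_self]
  have h3 : L' ^ k * (f (σ (s.ρ x)) - f x) = 0 := by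
    rw [← map_sub, ← hpow, h2, map_zero]
  rw [← s'.zero_iff, map_sub, sub_eq_zero] at h3
  exact h3

/-- **The transform of the sections.** -/
theorem exists_fm {n m k : ℕ} {X Y : KRing n} {L : X.R} {L' : Y.R} {Z Z' : KRing m} {a : ℂ}
    (s : Sect X L Z k a) (s' : Sect Y L' Z' k a) (Φ : FM X Y) (hL : Intertwines Φ L L') :
    ∃ Ψ : FM Z Z', ∀ x, Ψ.φ (s.ρ x) = s'.ρ (Φ.φ x) := by
  have hL' : ∀ y, Φ.φ.symm (L' * y) = L * Φ.φ.symm y := by
    intro y
    rw [LinearEquiv.symm_apply_eq, hL, LinearEquiv.apply_symm_apply]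
  obtain ⟨g, hg⟩ := exists_map s s' (Φ.φ : X.R →ₗ[ℂ] Y.R) hL
  obtain ⟨h, hh⟩ := exists_map s' s (Φ.φ.symm : Y.R →ₗ[ℂ] X.R) hL'
  simp only [LinearEquiv.coe_coe] at hg hh
  have h1 : ∀ z, h (g z) = z := by
    intro z
    obtain ⟨x, rfl⟩ := s.surj z
    rw [hg, hh, LinearEquiv.symm_apply_apply]
  have h2 : ∀ z, g (h z) = z := by
    intro z
    obtain ⟨y, rfl⟩ := s'.surj z
    rw [hh, hg, LinearEquiv.apply_symm_apply]
  have tg : ∀ (p q : ℤ) (z : Z.R), z ∈ typ Z p q → g z ∈ typ Z' p q := by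
    intro p q z hz
    unfold typ at hz
    refine Submodule.iSup_induction (p := fun k : ℤ => Z.H (p + k, q + k))
      (motive := fun z => g z ∈ typ Z' p q) hz ?_ ?_ ?_
    · intro j z hz
      obtain ⟨x, hx, rfl⟩ := s.exists_lift hz
      rw [hg, ← typ_shift Z' p q j]
      exact s'.typ' (typeOp_phi Φ _ _ x hx)
    · rw [map_zero]; exact Submodule.zero_mem _
    · intro x y hx hy
      rw [map_add]; exact Submodule.add_mem _ hx hy
  have th : ∀ (p q : ℤ) (z : Z'.R), z ∈ typ Z' p q → h z ∈ typ Z p q := by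
    intro p q z hz
    unfold typ at hz
    refine Submodule.iSup_induction (p := fun k : ℤ => Z'.H (p + k, q + k))
      (motive := fun z => h z ∈ typ Z p q) hz ?_ ?_ ?_
    · intro j z hz
      obtain ⟨x, hx, rfl⟩ := s'.exists_lift hz
      rw [hh, ← typ_shift Z p q j]
      exact s.typ' (typeOp_symm Φ _ _ x hx)
    · rw [map_zero]; exact Submodule.zero_mem _
    · intro x y hx hy
      rw [map_add]; exact Submodule.add_mem _ hx hy
  refine ⟨{ φ := LinearEquiv.ofLinearMap g h (LinearMap.ext h2) (LinearMap.ext h1),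
            real := ?_, hodge := ?_, isom := ?_ }, hg⟩
  · intro z
    obtain ⟨x, rfl⟩ := s.surj z
    show g _ = Z'.bar (g _)
    rw [← s.real, hg, hg, Φ.real, s'.real]
  · intro p q
    apply le_antisymm
    · rintro _ ⟨z, hz, rfl⟩
      exact tg p q z hz
    · intro z hz
      exact ⟨h z, th p q z hz, h2 z⟩
  · intro z w
    obtain ⟨x, rfl⟩ := s.surj z
    obtain ⟨y, rfl⟩ := s.surj w
    show Z'.mukai (g _) (g _) = _
    rw [hg, hg, s'.mukai, s.mukai, ← hL.pow, Φ.isom]

end Pool.Agent.E8helper34.OH
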