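import Pool.Agent.E8helper34.OH.Lift

/-!
# Fibrations of small defect
-/

set_option autoImplicit false

open scoped ComplexConjugate
open Module Pool.Agent.W539.DI Pool.Agent.R929.DH Pool.Agent.R941.OH Pool.Agent.R941.OH.HStr

namespace Pool.Agent.E8helper34.OH

variable {n : ℕ}

/-- There are sections of `X` and `Y` of codimension `k`, compatible with the rational
structures. -/
def SectionPair {X Y : KRing n} (r : RatStr X) (t : RatStr Y) (L : X.R) (L' : Y.R) (k m : ℕ) :
    Prop :=
  ∃ (Z Z' : KRing m) (z : RatStr Z) (z' : RatStr Z') (a : ℂ) (s : Sect X L Z k a)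
    (s' : Sect Y L' Z' k a), (∀ x, r.IsRat x → z.IsRat (s.ρ x)) ∧
      (∀ y, t.IsRat y → z'.IsRat (s'.ρ y))

/-- The multiplication by `L ^ k` is injective on the cohomology in degree `n - 2 - k`. -/
def SmallDefect (X : KRing n) (L : X.R) : Prop :=
  ∀ (p q : ℤ) (k : ℕ), p + q + k + 2 = n → ∀ x ∈ X.H (p, q), L ^ k * x = 0 → x = 0

theorem sum_cancel {ι : Type*} [DecidableEq ι] {s : Finset ι} {a b : ι → ℚ}
    (h : ∑ j ∈ s, a j = ∑ j ∈ s, b j) {i : ι} (hi : i ∈ s) (hs : ∀ j ∈ s, j ≠ i → a j = b j) :
    a i = b i := by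
  rw [← Finset.add_sum_erase s a hi, ← Finset.add_sum_erase s b hi,
    Finset.sum_congr rfl fun j hj => hs j (Finset.mem_of_mem_erase hj) (Finset.ne_of_mem_erase hj)]
    at h
  exact add_right_cancel h

theorem SmallDefect.inj {X : KRing n} {L : X.R} (hX : SmallDefect X L) (hL : L ∈ X.H (1, 1))
    {k m : ℕ} (hm : m + k = n) (D : ℕ → Prop) (hD : ∀ j, D j → j + 2 ≤ m) (x : X.R)
    (hx : proj X D x = x) (h : L ^ k * x = 0) : x = 0 := by
  classical
  refine eq_zero_of_pr X fun p q => ?_
  have h1 : L ^ k * pr X p q x = 0 := by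
    have h2 : L ^ k * pr X p q x = pr X (p + k) (q + k) (L ^ k * x) := by
      refine X.ind (P := fun x => L ^ k * pr X p q x = pr X (p + k) (q + k) (L ^ k * x))
        ?_ ?_ ?_ x
      · rw [map_zero, mul_zero, map_zero]
      · intro x y hx hy
        rw [map_add, mul_add, hx, hy, mul_add, map_add]
      · intro a b y hy
        have hy' : L ^ k * y ∈ X.H (a + k, b + k) := by
          have := X.mul_mem (X.pow_mem hL k) hy
          rwa [add_comm (k : ℤ) a, add_comm (k : ℤ) b] at this
        unfold pr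
        rw [diag_of X _ hy, diag_of X _ hy']
        by_cases hab : (a, b) = (p, q)
        · have ha : a = p := congrArg Prod.fst hab
          have hb : b = q := congrArg Prod.snd hab
          rw [if_pos hab, ha, hb, if_pos rfl, one_smul, one_smul]
        · rw [if_neg hab, if_neg, zero_smul, zero_smul, mul_zero]
          intro h3
          apply hab
          have h4 := congrArg Prod.fst h3
          have h5 := congrArg Prod.snd h3
          simp only at h4 h5
          rw [Prod.mk.injEq]
          constructor <;> omega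
    rw [h2, h, map_zero]
  by_cases hne : pr X p q x = 0
  · exact hne
  have hr : ¬ (p < 0 ∨ q < 0 ∨ (n : ℤ) < p ∨ (n : ℤ) < q) := fun h =>
    hne (zero_of X h (pr_mem X p q x))
  obtain ⟨j, hj⟩ : ∃ j : ℕ, p + q = j := ⟨(p + q).toNat, by omega⟩
  have h6 : D j := by
    by_contra hcon
    apply hne
    have h7 : pr X p q (proj X D x) = 0 := by
      unfold pr proj
      rw [← Module.End.mul_apply, diag_mul]
      have h8 : (fun pq : ℤ × ℤ => (if pq = (p, q) then (1 : ℂ) else 0) *
          (if ∃ m : ℕ, D m ∧ pq.1 + pq.2 = m then (1 : ℂ) else 0)) = fun _ => 0 := by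
        funext pq
        by_cases hpq : pq = (p, q)
        · have h11 : ¬ ∃ m : ℕ, D m ∧ pq.1 + pq.2 = m := by
            rintro ⟨m, h9, h10⟩
            rw [hpq] at h10
            simp only at h10
            have : m = j := by omega
            exact hcon (this ▸ h9)
          rw [if_neg h11, mul_zero]
        · rw [if_neg hpq, zero_mul]
      rw [h8]
      refine X.ind (P := fun x => diag X (fun _ => 0) x = 0) ?_ ?_ ?_ x
      · rw [map_zero]
      · intro x y hx hy
        rw [map_add, hx, hy, add_zero]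
      · intro a b y hy
        rw [diag_of X _ hy, zero_smul]
    rw [hx] at h7
    exact h7
  have h7 := hD j h6
  have h8 : p + q + ((n - 2 - j : ℕ) : ℤ) + 2 = n := by
    rw [hj]
    omega
  refine hX p q (n - 2 - j) h8 _ (pr_mem X p q x) ?_
  obtain ⟨l, hl⟩ : ∃ l, n - 2 - j = l + k := ⟨n - 2 - j - k, by omega⟩
  rw [hl, pow_add, mul_assoc, h1, mul_zero]

/-- **Fibrations of small defect.** -/
theorem small {X Y : KRing n} (r : RatStr X) (t : RatStr Y) (Φ : FM X Y)
    (h1 : RatOp r t (Φ.φ : X.R →ₗ[ℂ] Y.R)) (h2 : RatOp t r (Φ.φ.symm : Y.R →ₗ[ℂ] X.R))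
    {L : X.R} {L' : Y.R} (hL : r.IsRat L) (hL' : t.IsRat L') (hi : Intertwines Φ L L')
    (hX : SmallDefect X L) (hY : SmallDefect Y L')
    (hs : ∀ k m : ℕ, 1 ≤ k → 3 ≤ m → m + k = n → SectionPair r t L L' k m) (m : ℕ) :
    HodgeIso r t m := by
  classical
  -- the relations in low degrees
  have hlow : ∀ i, 1 ≤ i → i + 2 ≤ n → SameHodge r t (fun j => j < i + 2 ∧ (i + 2 - j) % 4 = 2) := by
    intro i hi1 hin
    by_cases hk : i + 2 = n
    · rw [hk]
      exact (HStr.main n X Y r t Φ h1 h2).2.1
    · obtain ⟨Z, Z', z, z', a, s, s', g, g'⟩ := hs (n - (i + 2)) (i + 2) (by omega) (by omega)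
        (by omega)
      obtain ⟨Ψ, hΨ⟩ := exists_fm s s' Φ hi
      have hΨ' : ∀ y, Ψ.φ.symm (s'.ρ y) = s.ρ (Φ.φ.symm y) := by
        intro y
        rw [LinearEquiv.symm_apply_eq, hΨ, LinearEquiv.apply_symm_apply]
      have f1 : RatOp z z' (Ψ.φ : Z.R →ₗ[ℂ] Z'.R) := by
        intro w hw
        obtain ⟨x, hx, rfl⟩ := s.rat_lift g hw
        rw [LinearEquiv.coe_coe, hΨ]
        exact g' _ (h1 x hx)
      have f2 : RatOp z' z (Ψ.φ.symm : Z'.R →ₗ[ℂ] Z.R) := by
        intro w hw
        obtain ⟨y, hy, rfl⟩ := s'.rat_lift g' hw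
        rw [LinearEquiv.coe_coe, hΨ']
        exact g _ (h2 y hy)
      refine transfer s s' g g' hL hL' _ (hX.inj s.L_mem (k := n - (i + 2)) (m := i + 2)
        (by omega) _ ?_) (hY.inj s'.L_mem (k := n - (i + 2)) (m := i + 2) (by omega) _ ?_)
        (HStr.main (i + 2) Z Z' z z' Ψ f1 f2).2.1
      · rintro j ⟨_, _⟩
        omega
      · rintro j ⟨_, _⟩
        omega
  obtain ⟨T, a, b, hD, hB, hC, hA, hS⟩ := relations r t Φ h1 h2
  have hiff : ∀ m, HodgeIso r t m ↔ SameHodge r t (fun k => k = m) := fun m =>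
    ⟨same_of_iso, iso_of_same⟩
  have hone : ∀ m, m ≤ 2 * n → (SameHodge r t (fun k => k = m) ↔ ∀ S, a S m = b S m) := by
    intro m hm
    rw [hD]
    refine forall_congr' fun S => ?_
    have e : (Finset.range (2 * n + 1)).filter (fun k => k = m) = {m} := by
      ext k
      simp only [Finset.mem_filter, Finset.mem_range, Finset.mem_singleton]
      omega
    rw [e, Finset.sum_singleton, Finset.sum_singleton]
  have h0 : ∀ S, a S 0 = b S 0 := (hone 0 (by omega)).1 (same_zero r t)
  -- all degrees at most `n - 2`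
  have hstep : ∀ i, i + 2 ≤ n → ∀ S, a S i = b S i := by
    intro i
    induction i using Nat.strong_induction_on with
    | _ i ih =>
      intro hin S
      rcases Nat.eq_zero_or_pos i with hi0 | hi0
      · rw [hi0]; exact h0 S
      have h3 := (hD _).1 (hlow i hi0 hin) S
      refine sum_cancel h3 (i := i) ?_ fun j hj hne => ih j ?_ ?_ S
      · rw [Finset.mem_filter, Finset.mem_range]
        omega
      · rw [Finset.mem_filter, Finset.mem_range] at hj
        omega
      · rw [Finset.mem_filter, Finset.mem_range] at hj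
        omega
  have hn1 : 1 ≤ n → ∀ S, a S (n - 1) = b S (n - 1) := by
    intro hn S
    refine sum_cancel (hA S) (i := n - 1) ?_ fun j hj hne => hstep j ?_ S
    · rw [Finset.mem_filter, Finset.mem_range]
      omega
    · rw [Finset.mem_filter, Finset.mem_range] at hj
      omega
  have hn0 : ∀ S, a S n = b S n := by
    intro S
    have h := hC S
    have h' : ∑ j ∈ (Finset.range n).filter (fun j => (n - j) % 4 = 0), a S j =
        ∑ j ∈ (Finset.range n).filter (fun j => (n - j) % 4 = 0), b S j := by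
      refine Finset.sum_congr rfl fun j hj => hstep j ?_ S
      rw [Finset.mem_filter, Finset.mem_range] at hj
      omega
    rw [h'] at h
    exact add_right_cancel h
  have hle : ∀ j, j ≤ n → ∀ S, a S j = b S j := by
    intro j hj
    by_cases h3 : j + 2 ≤ n
    · exact hstep j h3
    · by_cases e0 : j = n
      · rw [e0]; exact hn0
      · have e1 : j = n - 1 := by omega
        rw [e1]; exact hn1 (by omega)
  rw [hiff]
  by_cases hm : m ≤ 2 * n
  · rw [hone m hm]
    intro S
    by_cases hmn : m ≤ n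
    · exact hle m hmn S
    · obtain ⟨k, hk⟩ : ∃ k, m = n + k := ⟨m - n, by omega⟩
      rw [hk, (hS S k (by omega)).1, (hS S k (by omega)).2]
      exact hle _ (by omega) S
  · rw [hD]
    intro S
    have e : (Finset.range (2 * n + 1)).filter (fun k => k = m) = ∅ := by
      ext k
      simp only [Finset.mem_filter, Finset.mem_range, Finset.notMem_empty, iff_false]
      omega
    rw [e, Finset.sum_empty, Finset.sum_empty]

end Pool.Agent.E8helper34.OH
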